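import Pool.Agent.Helper44.CM.Interface

/-!
# Project MM, blocks B4 and B7: the growth class and integrals against `exp (-WW V)`
-/

open MeasureTheory

namespace CM

variable {n : ℕ}

/-- `C^k`, and all partial derivatives of order at most `k` are at most `C (1 + |x|)^m`. -/
def PC (k : ℕ) (C : ℝ) (m : ℕ) (f : E n → ℝ) : Prop :=
  ContDiff ℝ k f ∧ ∀ l : List (Fin n), l.length ≤ k → ∀ x, |pdl l f x| ≤ C * (1 + ‖x‖) ^ m

/-- Integral against `exp (-WW V)`. -/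
noncomputable def IV (V f : E n → ℝ) : ℝ := ∫ x : E n, f x * Real.exp (- WW V x)

/-- The potentials for which the `L²` theory is done. -/
structure VOK (c K : ℝ) (V : E n → ℝ) : Prop where
  c_pos : 0 < c
  reg : ContDiff ℝ 5 V
  even : IsEv V
  lo : ∀ x, LB c (hess V x)
  bd : ∀ x i j, |hess V x i j| ≤ K
  h2 : ∃ M, H2 3 M V
  gau : ∀ x, |WW V x - qn x| ≤ K

/-- The squared metric norm of the Hessian, `tr (τ D²u τ D²u)`. -/
noncomputable def nB (V u : E n → ℝ) (x : E n) : ℝ :=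
  tr2 (tau V x * hess u x) (hess u x * tau V x)

/-- `Γ(f, g) = <τ ∇f, ∇g>`. -/
noncomputable def Gam (V f g : E n → ℝ) (x : E n) : ℝ :=
  ∑ i, ∑ j, tau V x i j * pd i f x * pd j g x

/-- Integrability of functions of polynomial growth. -/
def ST_INT : Prop :=
  ∀ (n : ℕ) (c K : ℝ) (V f : E n → ℝ) (C : ℝ) (m : ℕ), VOK c K V → Continuous f →
    (∀ x, |f x| ≤ C * (1 + ‖x‖) ^ m) → Integrable (fun x => f x * Real.exp (- WW V x))

/-- Integration by parts. -/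
def ST_IBP : Prop :=
  ∀ (n : ℕ) (c K : ℝ) (V f : E n → ℝ) (C : ℝ) (m : ℕ) (i : Fin n), VOK c K V → PC 1 C m f →
    IV V (fun x => pd i f x - f x * pd i (WW V) x) = 0

/-- Poincare inequality, with a constant depending only on `K`. -/
def ST_POI : Prop :=
  ∀ (n : ℕ) (K : ℝ), ∃ CP : ℝ, 0 ≤ CP ∧ ∀ (c : ℝ) (V f : E n → ℝ) (C : ℝ) (m : ℕ), VOK c K V →
    PC 1 C m f → IV V f = 0 → IV V (fun x => f x ^ 2) ≤ CP * IV V (fun x => ∑ i, pd i f x ^ 2)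

/-- Symmetry of `L`. -/
def ST_SYM : Prop :=
  ∀ (n : ℕ) (c K : ℝ) (V f g : E n → ℝ) (C : ℝ) (m : ℕ), VOK c K V → PC 1 C m f → PC 2 C m g →
    IV V (Gam V f g) = - IV V (fun x => f x * LL (tau V) g x)

/-- The identity (0): `E (Lu)² = E |D²u|² + E Γ(u, u)`. -/
def ST_BOC : Prop :=
  ∀ (n : ℕ) (c K : ℝ) (V u : E n → ℝ) (C : ℝ) (m : ℕ), VOK c K V → PC 3 C m u →
    IV V (fun x => LL (tau V) u x ^ 2) = IV V (nB V u) + IV V (Gam V u u)

/-- The estimates behind `ST_L2` and `ST_DENS`: with `b = E |D²u|²`, `u` even,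
`E Γ(u, u) ≤ C b`, `E |D²u|²_{HS} ≤ C b`, and `E u² ≤ C b` if `E u = 0`. -/
def ST_COER : Prop :=
  ∀ (n : ℕ) (c K : ℝ), 0 < c → ∃ D : ℝ, 0 ≤ D ∧ ∀ (V u : E n → ℝ) (C : ℝ) (m : ℕ),
    VOK c K V → PC 3 C m u → IsEv u →
    IV V (nB V u) = IV V (fun x => LL (tau V) u x * (LL (tau V) u x + u x)) ∧
    IV V (Gam V u u) ≤ D * IV V (nB V u) ∧
    IV V (fun x => ∑ i, ∑ j, pd i (pd j u) x ^ 2) ≤ D * IV V (nB V u) ∧
    IV V (fun x => LL (tau V) u x ^ 2) ≤ D * IV V (nB V u) ∧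
    (IV V u = 0 → IV V (fun x => u x ^ 2) ≤ D * IV V (nB V u))

end CM
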