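import Pool.Agent.Helper12.MM.Calc
import Pool.Agent.Helper31.MM.Basic

/-!
# Project MM, row B4.BOCH: the identity (0)
-/

open MeasureTheory CM

namespace MM12

variable {n : ℕ}

/-! ### the class `PGC` -/

theorem PGC_iff {k : ℕ} {f : E n → ℝ} : PGC k f ↔ PF k (fun _ : Unit => f) := by
  constructor
  · intro h
    induction k generalizing f with
    | zero =>
      obtain ⟨C, m, hC⟩ := h.2 [] (by simp)
      refine PF_zero.2 ⟨fun _ => h.1.continuous, |C|, m, abs_nonneg _, fun _ x => ?_⟩
      exact (hC x).trans (mul_le_mul_of_nonneg_right (le_abs_self _) (by positivity))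
    | succ k ih =>
      obtain ⟨C, m, hC⟩ := h.2 [] (by simp)
      refine PF_succ.2 ⟨fun _ => h.1, ⟨|C|, m, abs_nonneg _, fun _ x => ?_⟩, fun i => ?_⟩
      · exact (hC x).trans (mul_le_mul_of_nonneg_right (le_abs_self _) (by positivity))
      · refine ih ⟨contDiff_pd' h.1, fun l hl => ?_⟩
        have := h.2 (l ++ [i]) (by simp; omega)
        rwa [pdl_append] at this
  · rintro ⟨C, m, hC, h⟩
    exact ⟨(h ()).1, fun l hl => ⟨C, m, (h ()).2 l hl⟩⟩

theorem _root_.CM.PGC.mono12 {k l : ℕ} (h : k ≤ l) {f : E n → ℝ} (hf : PGC l f) : PGC k f :=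
  PGC_iff.2 ((PGC_iff.1 hf).mono h)

theorem _root_.CM.PGC.pd12 {k : ℕ} {f : E n → ℝ} (hf : PGC (k + 1) f) (i : Fin n) : PGC k (pd i f) :=
  PGC_iff.2 ((PGC_iff.1 hf).pd i)

theorem _root_.CM.PGC.add12 {k : ℕ} {f g : E n → ℝ} (hf : PGC k f) (hg : PGC k g) :
    PGC k (fun x => f x + g x) :=
  PGC_iff.2 ((PGC_iff.1 hf).add (PGC_iff.1 hg))

theorem _root_.CM.PGC.sub12 {k : ℕ} {f g : E n → ℝ} (hf : PGC k f) (hg : PGC k g) :
    PGC k (fun x => f x - g x) :=
  PGC_iff.2 ((PGC_iff.1 hf).sub (PGC_iff.1 hg))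

theorem _root_.CM.PGC.neg12 {k : ℕ} {f : E n → ℝ} (hf : PGC k f) : PGC k (fun x => - f x) :=
  PGC_iff.2 (PGC_iff.1 hf).neg

theorem _root_.CM.PGC.mul12 {k : ℕ} {f g : E n → ℝ} (hf : PGC k f) (hg : PGC k g) :
    PGC k (fun x => f x * g x) :=
  PGC_iff.2 ((PGC_iff.1 hf).mul (PGC_iff.1 hg))

theorem PGC_sum' {k : ℕ} {κ : Type*} (s : Finset κ) {f : κ → E n → ℝ}
    (hf : ∀ c ∈ s, PGC k (f c)) : PGC k (fun x => ∑ c ∈ s, f c x) :=
  PGC_iff.2 (PF_sum (ι := Unit) s (f := fun c _ => f c) fun c hc => PGC_iff.1 (hf c hc))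

theorem PGC_const' (k : ℕ) (b : ℝ) : PGC k (fun _ : E n => b) := PGC_iff.2 (PF_const k b)

theorem _root_.CM.PGC.eul12 {k : ℕ} {f : E n → ℝ} (hf : PGC (k + 1) f) : PGC k (eul f) :=
  PGC_iff.2 (PGC_iff.1 hf).eul

theorem _root_.CM.PGC.pow12 {k : ℕ} {f : E n → ℝ} (hf : PGC k f) : PGC k (fun x => f x ^ 2) := by
  simpa [sq] using PGC.mul12 hf hf

theorem _root_.CM.PGC.diff12 {k : ℕ} {f : E n → ℝ} (hf : PGC (k + 1) f) : Differentiable ℝ f :=
  hf.1.differentiable (by simp)

theorem _root_.CM.PGC.cont12 {k : ℕ} {f : E n → ℝ} (hf : PGC k f) : Continuous f := hf.1.continuous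

/-! ### weighted integrals -/

/-- the weights: continuous bounded perturbations of `|x|²/2`. -/
def WC (W : E n → ℝ) : Prop := Continuous W ∧ ∃ K, GW K W

theorem WC_of_VG {V : E n → ℝ} (hV : VG V) : WC (WW V) := by
  obtain ⟨a, ha, hlo⟩ := hV.pos
  exact ⟨CM.H31.continuous_WW ha (hV.reg.of_le (by norm_num)) hlo, hV.gau⟩

theorem int_pgc {W f : E n → ℝ} (hW : WC W) (hf : PGC 0 f) :
    Integrable (fun x => f x * Real.exp (-(W x))) := by
  obtain ⟨h1, K, h2⟩ := hW
  exact integrable_pg h1 h2 hf.cont12 (hf.2 [] (by simp))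

theorem wint_add {W f g : E n → ℝ} (hW : WC W) (hf : PGC 0 f) (hg : PGC 0 g) :
    wint W (fun x => f x + g x) = wint W f + wint W g := by
  unfold wint
  rw [← integral_add (int_pgc hW hf) (int_pgc hW hg)]
  refine integral_congr_ae (Filter.Eventually.of_forall fun x => ?_)
  simp only
  ring

theorem wint_neg (W f : E n → ℝ) : wint W (fun x => - f x) = - wint W f := by
  unfold wint
  rw [← integral_neg]
  refine integral_congr_ae (Filter.Eventually.of_forall fun x => ?_)
  simp only
  ring

theorem wint_cmul (W f : E n → ℝ) (a : ℝ) : wint W (fun x => a * f x) = a * wint W f := by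
  unfold wint
  rw [← integral_const_mul]
  refine integral_congr_ae (Filter.Eventually.of_forall fun x => ?_)
  simp only
  ring

theorem wint_sub {W f g : E n → ℝ} (hW : WC W) (hf : PGC 0 f) (hg : PGC 0 g) :
    wint W (fun x => f x - g x) = wint W f - wint W g := by
  have := wint_add hW hf hg.neg12
  rw [wint_neg] at this
  simpa [sub_eq_add_neg] using this

theorem wint_zero (W : E n → ℝ) : wint W (fun _ => 0) = 0 := by
  unfold wint
  simp

theorem wint_sum {W : E n → ℝ} {κ : Type*} (s : Finset κ) {f : κ → E n → ℝ} (hW : WC W)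
    (hf : ∀ c ∈ s, PGC 0 (f c)) : wint W (fun x => ∑ c ∈ s, f c x) = ∑ c ∈ s, wint W (f c) := by
  classical
  induction s using Finset.induction_on with
  | empty => simpa using wint_zero W
  | insert c s hc ih =>
    have e : (fun (x : E n) => ∑ d ∈ insert c s, f d x) = fun x => f c x + ∑ d ∈ s, f d x := by
      funext x
      rw [Finset.sum_insert hc]
    rw [e, wint_add hW (hf c (Finset.mem_insert_self _ _))
      (PGC_sum' s fun d hd => hf d (Finset.mem_insert_of_mem hd)),
      ih fun d hd => hf d (Finset.mem_insert_of_mem hd), Finset.sum_insert hc]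

theorem wint_mono {W f g : E n → ℝ} (hW : WC W) (hf : PGC 0 f) (hg : PGC 0 g)
    (h : ∀ x, f x ≤ g x) : wint W f ≤ wint W g :=
  integral_mono (int_pgc hW hf) (int_pgc hW hg) fun x =>
    mul_le_mul_of_nonneg_right (h x) (Real.exp_pos _).le

theorem wint_nonneg {W f : E n → ℝ} (h : ∀ x, 0 ≤ f x) : 0 ≤ wint W f :=
  integral_nonneg fun x => mul_nonneg (h x) (Real.exp_pos _).le

/-! ### the operator -/

theorem pgc_hess {k : ℕ} {u : E n → ℝ} (hu : PGC (k + 2) u) (i j : Fin n) :
    PGC k (fun x => hess u x i j) := by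
  have : PGC k (pd i (pd j u)) := (hu.pd12 j).pd12 i
  exact this

theorem pgc_LL {k : ℕ} {τ : E n → Mt n} {u : E n → ℝ} (hτ : ∀ i j, PGC k (fun x => τ x i j))
    (hu : PGC (k + 2) u) : PGC k (LL τ u) := by
  have h1 : PGC k (fun x => tr2 (τ x) (hess u x)) := by
    unfold tr2
    exact PGC_sum' _ fun i _ => PGC_sum' _ fun j _ => (hτ i j).mul12 (pgc_hess hu i j)
  exact h1.sub12 (PGC.mono12 (by omega) (PGC.eul12 (k := k + 1) hu))

theorem pgc_GA {k : ℕ} {τ : E n → Mt n} {u v : E n → ℝ} (hτ : ∀ i j, PGC k (fun x => τ x i j))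
    (hu : PGC (k + 1) u) (hv : PGC (k + 1) v) : PGC k (GA τ u v) := by
  unfold GA
  exact PGC_sum' _ fun i _ => PGC_sum' _ fun j _ => ((hτ i j).mul12 (hu.pd12 i)).mul12 (hv.pd12 j)

/-- derivative of `L u`. -/
theorem pd_LL {τ : E n → Mt n} {u : E n → ℝ} (hτ : ∀ i j, PGC 1 (fun x => τ x i j))
    (hu : PGC 3 u) (i : Fin n) (x : E n) :
    pd i (LL τ u) x = (∑ a, ∑ b, pd i (fun y => τ y a b) x * pd a (pd b u) x)
      + LL τ (pd i u) x - pd i u x := by
  have hd1 : ∀ a, Differentiable ℝ (pd a u) := fun a => (PGC.mono12 (by norm_num : 1 ≤ 2) (hu.pd12 a)).diff12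
  have hd2 : ∀ a b, Differentiable ℝ (pd a (pd b u)) := fun a b => ((hu.pd12 b).pd12 a).diff12
  have hc2 : ∀ a, ContDiff ℝ 2 (pd a u) := fun a => (hu.pd12 a).1
  have hu2 : ContDiff ℝ 2 u := hu.1.of_le (by norm_num)
  have hdE : Differentiable ℝ (eul u) := (PGC.mono12 (by norm_num : 1 ≤ 2) (PGC.eul12 (k := 2) hu)).diff12
  have e1 : pd i (fun y => tr2 (τ y) (hess u y)) x =
      (∑ a, ∑ b, pd i (fun y => τ y a b) x * pd a (pd b u) x)
        + ∑ a, ∑ b, τ x a b * pd a (pd b (pd i u)) x := by
    unfold tr2 hess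
    simp only [Matrix.of_apply]
    rw [pd_sum' fun a _ => DifferentiableAt.fun_sum fun b _ =>
      ((hτ a b).diff12 x).fun_mul (hd2 a b x)]
    rw [← Finset.sum_add_distrib]
    refine Finset.sum_congr rfl fun a _ => ?_
    rw [pd_sum' fun b _ => ((hτ a b).diff12 x).fun_mul (hd2 a b x)]
    rw [← Finset.sum_add_distrib]
    refine Finset.sum_congr rfl fun b _ => ?_
    rw [pd_mul' ((hτ a b).diff12 x) (hd2 a b x)]
    have : pd i (pd a (pd b u)) x = pd a (pd b (pd i u)) x := by
      rw [pd_comm' (hc2 b)]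
      congr 1
      funext y
      exact pd_comm' hu2 y
    rw [this]
  have e2 : pd i (eul u) x = pd i u x + eul (pd i u) x := by
    have e : eul u = fun y => ∑ a, y a * pd a u y := by
      funext y; exact eul_eq
    rw [e, eul_eq, pd_sum' fun a _ => ((contDiff_coord (k := 1)).differentiable (by simp) x).fun_mul
      (hd1 a x)]
    have e3 : ∀ a, pd i (fun y : E n => y a * pd a u y) x =
        (if i = a then 1 else 0) * pd a u x + x a * pd a (pd i u) x := by
      intro a
      rw [pd_mul' ((contDiff_coord (k := 1)).differentiable (by simp) x) (hd1 a x), pd_coord',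
        pd_comm' hu2]
    simp only [e3, Finset.sum_add_distrib]
    simp
  have e0 : pd i (LL τ u) x = pd i (fun y => tr2 (τ y) (hess u y)) x - pd i (eul u) x := by
    unfold LL
    refine pd_sub' ?_ (hdE x)
    unfold tr2 hess
    simp only [Matrix.of_apply]
    exact DifferentiableAt.fun_sum fun a _ => DifferentiableAt.fun_sum fun b _ =>
      ((hτ a b).diff12 x).fun_mul (hd2 a b x)
  rw [e0, e1, e2]
  unfold LL tr2 hess
  simp only [Matrix.of_apply]
  ring

/-- the algebraic cancellation. -/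
theorem cancel_T (t B : Mt n) (T : Fin n → Mt n) (w : Fin n → ℝ) (ht : t.IsSymm) (hB : B.IsSymm)
    (hT : ∀ a i j, T a i j = T j i a) :
    (∑ i, ∑ a, ∑ b, t a b * (∑ j, (t * T a * t) i j * w j) * B b i)
      = ∑ i, (∑ j, t i j * w j) * ∑ a, ∑ b, (t * T i * t) a b * B a b := by
  set p : Fin n → ℝ := fun i => ∑ j, t i j * w j with hp
  set Q : Mt n := t * B * t with hQ
  have hQs : ∀ a b, Q a b = Q b a := by
    intro a b
    have : Q.transpose = Q := by
      rw [hQ]
      simp only [Matrix.transpose_mul]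
      rw [ht.eq, hB.eq, Matrix.mul_assoc]
    have h := congrFun (congrFun this b) a
    simpa [Matrix.transpose_apply] using h
  have h1 : (∑ i, ∑ a, ∑ b, t a b * (∑ j, (t * T a * t) i j * w j) * B b i)
      = ∑ a, ∑ c, ∑ d, Q a c * T a c d * p d := by
    have e1 : ∀ a i, (∑ j, (t * T a * t) i j * w j) = ∑ c, t i c * ∑ d, T a c d * p d := by
      intro a i
      have : (∑ j, (t * T a * t) i j * w j) = ((t * T a * t).mulVec w) i := rfl
      rw [this, ← Matrix.mulVec_mulVec, ← Matrix.mulVec_mulVec]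
      rfl
    simp only [e1]
    have e2 : ∀ a, (∑ i, ∑ b, t a b * (∑ c, t i c * ∑ d, T a c d * p d) * B b i)
        = ∑ c, ∑ d, Q a c * T a c d * p d := by
      intro a
      have e3 : ∀ c, Q a c = ∑ i, ∑ b, t a b * B b i * t i c := by
        intro c
        rw [hQ, Matrix.mul_apply]
        refine Finset.sum_congr rfl fun i _ => ?_
        rw [Matrix.mul_apply, Finset.sum_mul]
      calc (∑ i, ∑ b, t a b * (∑ c, t i c * ∑ d, T a c d * p d) * B b i)
          = ∑ i, ∑ b, ∑ c, (t a b * B b i * t i c) * ∑ d, T a c d * p d := by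
            refine Finset.sum_congr rfl fun i _ => Finset.sum_congr rfl fun b _ => ?_
            rw [Finset.mul_sum, Finset.sum_mul]
            refine Finset.sum_congr rfl fun c _ => ?_
            ring
        _ = ∑ c, Q a c * ∑ d, T a c d * p d := by
            have : ∀ i, (∑ b, ∑ c, (t a b * B b i * t i c) * ∑ d, T a c d * p d)
                = ∑ c, (∑ b, t a b * B b i * t i c) * ∑ d, T a c d * p d := by
              intro i
              rw [Finset.sum_comm]
              refine Finset.sum_congr rfl fun c _ => ?_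
              rw [Finset.sum_mul]
            simp only [this]
            rw [Finset.sum_comm]
            refine Finset.sum_congr rfl fun c _ => ?_
            rw [e3, Finset.sum_mul]
        _ = ∑ c, ∑ d, Q a c * T a c d * p d := by
            refine Finset.sum_congr rfl fun c _ => ?_
            rw [Finset.mul_sum]
            refine Finset.sum_congr rfl fun d _ => ?_
            ring
    rw [Finset.sum_comm]
    exact Finset.sum_congr rfl fun a _ => e2 a
  have h2 : (∑ i, p i * ∑ a, ∑ b, (t * T i * t) a b * B a b)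
      = ∑ i, ∑ c, ∑ d, p i * (T i c d * Q c d) := by
    refine Finset.sum_congr rfl fun i _ => ?_
    have e1 : (∑ a, ∑ b, (t * T i * t) a b * B a b) = ∑ c, ∑ d, T i c d * Q c d := by
      have e2 : (∑ a, ∑ b, (t * T i * t) a b * B a b) = ((t * T i * t) * B).trace := by
        rw [Matrix.trace]
        refine Finset.sum_congr rfl fun a _ => ?_
        rw [Matrix.diag_apply, Matrix.mul_apply]
        refine Finset.sum_congr rfl fun b _ => ?_
        rw [hB.apply b a]
      have e3 : (∑ c, ∑ d, T i c d * Q c d) = (T i * Q).trace := by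
        rw [Matrix.trace]
        refine Finset.sum_congr rfl fun a _ => ?_
        rw [Matrix.diag_apply, Matrix.mul_apply]
        refine Finset.sum_congr rfl fun b _ => ?_
        rw [hQs a b]
      rw [e2, e3, hQ]
      calc ((t * T i * t) * B).trace = (t * (T i * t * B)).trace := by
            simp only [Matrix.mul_assoc]
        _ = ((T i * t * B) * t).trace := Matrix.trace_mul_comm _ _
        _ = (T i * (t * B * t)).trace := by simp only [Matrix.mul_assoc]
    rw [e1, Finset.mul_sum]
    refine Finset.sum_congr rfl fun c _ => ?_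
    rw [Finset.mul_sum]
  rw [h1, h2]
  have h3 : (∑ a, ∑ c, ∑ d, Q a c * T a c d * p d) = ∑ d, ∑ c, ∑ a, Q a c * T a c d * p d := by
    rw [Finset.sum_comm]
    simp only [Finset.sum_comm (f := fun a d => Q a _ * T a _ d * p d)]
    rw [Finset.sum_comm]
  rw [h3]
  refine Finset.sum_congr rfl fun d _ => Finset.sum_congr rfl fun c _ => ?_
  refine Finset.sum_congr rfl fun a _ => ?_
  rw [hT a c d, hQs a c]
  ring

theorem tau_symm {V : E n → ℝ} (hV : ContDiff ℝ 2 V) (x : E n) : (tau V x).IsSymm := by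
  have h : (hess V x).IsSymm := CM.H31.hess_symm hV x
  unfold tau Matrix.IsSymm
  rw [Matrix.transpose_nonsing_inv, h.eq]

/-- the trace form of `HN`. -/
theorem HN_eq {V u : E n → ℝ} (hV : ContDiff ℝ 2 V) (hu : ContDiff ℝ 2 u) (x : E n) :
    HN (tau V) u x =
      ∑ i, ∑ a, ∑ b, tau V x a b * (∑ j, tau V x i j * pd j (pd a u) x) * pd b (pd i u) x := by
  unfold HN
  rw [Matrix.trace]
  have e1 : ∀ i, ((tau V x * hess u x) * (tau V x * hess u x)).diag i =
      ∑ a, (∑ j, tau V x i j * pd j (pd a u) x) * ∑ b, tau V x a b * pd b (pd i u) x := by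
    intro i
    rw [Matrix.diag_apply, Matrix.mul_apply]
    refine Finset.sum_congr rfl fun a _ => ?_
    rw [Matrix.mul_apply, Matrix.mul_apply]
    rfl
  simp only [e1]
  refine Finset.sum_congr rfl fun i _ => Finset.sum_congr rfl fun a _ => ?_
  rw [Finset.mul_sum]
  refine Finset.sum_congr rfl fun b _ => ?_
  ring

/-- The identity (0), from the row `TAU` and the symmetry of `L`. -/
theorem bochner0_of {V u : E n → ℝ} (hV : VG V)
    (hτ : ∀ i j, PGC 1 (fun x => tau V x i j))
    (hpτ : ∀ (k i j : Fin n) (x : E n), pd k (fun y => tau V y i j) x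
      = - ∑ a, ∑ b, tau V x i a * pd k (pd a (pd b V)) x * tau V x b j)
    (hdir : ∀ φ ψ : E n → ℝ, PGC 1 φ → PGC 2 ψ →
      wint (WW V) (GA (tau V) φ ψ) = wint (WW V) (fun x => - (φ x * LL (tau V) ψ x)))
    (hu : PGC 3 u) :
    wint (WW V) (fun x => LL (tau V) u x ^ 2)
      = wint (WW V) (HN (tau V) u) + wint (WW V) (GA (tau V) u u) := by
  have hW := WC_of_VG hV
  have hV2 : ContDiff ℝ 2 V := hV.reg.of_le (by norm_num)
  have hu2 : ContDiff ℝ 2 u := hu.1.of_le (by norm_num)
  have hτ0 : ∀ i j, PGC 0 (fun x => tau V x i j) := fun i j => PGC.mono12 (by norm_num) (hτ i j)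
  have hL : PGC 1 (LL (tau V) u) := pgc_LL hτ hu
  have hu1 : ∀ i, PGC 2 (pd i u) := fun i => hu.pd12 i
  -- the vector field `p`
  let p : Fin n → E n → ℝ := fun i x => ∑ j, tau V x i j * pd j u x
  have hp : ∀ i, PGC 1 (p i) := fun i =>
    PGC_sum' _ fun j _ => (hτ i j).mul12 (PGC.mono12 (by norm_num) (hu1 j))
  let X : E n → ℝ := fun x => ∑ i, p i x * ∑ a, ∑ b, pd i (fun y => tau V y a b) x * pd a (pd b u) x
  have hpd0 : ∀ k i j, PGC 0 (pd k (fun y => tau V y i j)) := fun k i j => (hτ i j).pd12 k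
  have hh0 : ∀ a b, PGC 0 (pd a (pd b u)) := fun a b => PGC.mono12 (by norm_num) ((hu1 b).pd12 a)
  have hX : PGC 0 X := PGC_sum' _ fun i _ => (PGC.mono12 (by norm_num) (hp i)).mul12
    (PGC_sum' _ fun a _ => PGC_sum' _ fun b _ => (hpd0 i a b).mul12 (hh0 a b))
  have hHN0 : PGC 0 (HN (tau V) u) := by
    have e : HN (tau V) u = fun x => ∑ i, ∑ a, ∑ b, tau V x a b *
        (∑ j, tau V x i j * pd j (pd a u) x) * pd b (pd i u) x := by
      funext x; exact HN_eq hV2 hu2 x
    rw [e]
    exact PGC_sum' _ fun i _ => PGC_sum' _ fun a _ => PGC_sum' _ fun b _ =>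
      ((hτ0 a b).mul12 (PGC_sum' _ fun j _ => (hτ0 i j).mul12 (hh0 j a))).mul12 (hh0 b i)
  have hGA0 : PGC 0 (GA (tau V) u u) :=
    pgc_GA hτ0 (PGC.mono12 (by norm_num) hu) (PGC.mono12 (by norm_num) hu)
  have hLi : ∀ i, PGC 0 (LL (tau V) (pd i u)) := fun i => pgc_LL hτ0 (hu1 i)
  -- step 2
  have s2 : wint (WW V) (GA (tau V) (LL (tau V) u) u)
      = - wint (WW V) (fun x => LL (tau V) u x ^ 2) := by
    rw [hdir _ _ hL (PGC.mono12 (by norm_num) hu), ← wint_neg]
    congr 1
    funext x
    ring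
  -- step 3
  have s3 : ∀ x, GA (tau V) (LL (tau V) u) u x
      = (∑ i, p i x * LL (tau V) (pd i u) x) + X x - GA (tau V) u u x := by
    intro x
    have e1 : ∀ v : E n → ℝ, GA (tau V) v u x = ∑ i, p i x * pd i v x := by
      intro v
      unfold GA
      refine Finset.sum_congr rfl fun i _ => ?_
      simp only [p]
      rw [Finset.sum_mul]
      refine Finset.sum_congr rfl fun j _ => ?_
      ring
    rw [e1, e1]
    simp only [X]
    rw [← Finset.sum_add_distrib, ← Finset.sum_sub_distrib]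
    refine Finset.sum_congr rfl fun i _ => ?_
    rw [pd_LL hτ hu]
    ring
  -- step 4
  have s4 : ∀ i, wint (WW V) (GA (tau V) (p i) (pd i u))
      = - wint (WW V) (fun x => p i x * LL (tau V) (pd i u) x) := by
    intro i
    rw [hdir _ _ (hp i) (hu1 i), ← wint_neg]
  -- step 5
  have s5 : ∀ x, (∑ i, GA (tau V) (p i) (pd i u) x) = HN (tau V) u x + X x := by
    intro x
    have e1 : ∀ a i, pd a (p i) x = (∑ j, pd a (fun y => tau V y i j) x * pd j u x)
        + ∑ j, tau V x i j * pd j (pd a u) x := by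
      intro a i
      simp only [p]
      rw [pd_sum' fun j _ => ((hτ i j).diff12 x).fun_mul ((PGC.mono12 (by norm_num : 1 ≤ 2) (hu1 j)).diff12 x),
        ← Finset.sum_add_distrib]
      refine Finset.sum_congr rfl fun j _ => ?_
      rw [pd_mul' ((hτ i j).diff12 x) ((PGC.mono12 (by norm_num : 1 ≤ 2) (hu1 j)).diff12 x), pd_comm' hu2]
    have e2 : (∑ i, GA (tau V) (p i) (pd i u) x) =
        (∑ i, ∑ a, ∑ b, tau V x a b * (∑ j, pd a (fun y => tau V y i j) x * pd j u x)
          * pd b (pd i u) x) + HN (tau V) u x := by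
      rw [HN_eq hV2 hu2, ← Finset.sum_add_distrib]
      refine Finset.sum_congr rfl fun i _ => ?_
      unfold GA
      rw [← Finset.sum_add_distrib]
      refine Finset.sum_congr rfl fun a _ => ?_
      rw [← Finset.sum_add_distrib]
      refine Finset.sum_congr rfl fun b _ => ?_
      rw [e1]
      ring
    have hTs : ∀ a i j : Fin n, pd a (pd i (pd j V)) x = pd j (pd i (pd a V)) x := by
      intro a i j
      have hVj : ∀ j, ContDiff ℝ 2 (pd j V) := fun j => contDiff_pd' (k := 2) hV.reg
      have hcomm : ∀ a b, pd a (pd b V) = pd b (pd a V) := by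
        intro a b
        funext y
        exact pd_comm' hV2 y
      calc pd a (pd i (pd j V)) x = pd a (pd j (pd i V)) x := by rw [hcomm i j]
        _ = pd j (pd a (pd i V)) x := pd_comm' (hVj i) x
        _ = pd j (pd i (pd a V)) x := by rw [hcomm a i]
    let T : Fin n → Mt n := fun a => Matrix.of fun i j => pd a (pd i (pd j V)) x
    have hmat : ∀ k i j, pd k (fun y => tau V y i j) x = - (tau V x * T k * tau V x) i j := by
      intro k i j
      rw [hpτ]
      congr 1
      rw [Matrix.mul_apply]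
      rw [Finset.sum_comm]
      refine Finset.sum_congr rfl fun b _ => ?_
      rw [Matrix.mul_apply, Finset.sum_mul]
      rfl
    have hc := cancel_T (tau V x) (hess u x) T (fun j => pd j u x) (tau_symm hV2 x)
      (CM.H31.hess_symm hu2 x) (fun a i j => hTs a i j)
    have e3 : (∑ i, ∑ a, ∑ b, tau V x a b * (∑ j, pd a (fun y => tau V y i j) x * pd j u x)
          * pd b (pd i u) x) = X x := by
      simp only [X, p, hmat]
      have e4 : (∑ i, ∑ a, ∑ b, tau V x a b * (∑ j, -(tau V x * T a * tau V x) i j * pd j u x)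
          * pd b (pd i u) x) = - ∑ i, ∑ a, ∑ b, tau V x a b *
            (∑ j, (tau V x * T a * tau V x) i j * pd j u x) * hess u x b i := by
        simp only [← Finset.sum_neg_distrib]
        refine Finset.sum_congr rfl fun i _ => Finset.sum_congr rfl fun a _ =>
          Finset.sum_congr rfl fun b _ => ?_
        have : (∑ j, -(tau V x * T a * tau V x) i j * pd j u x)
            = - ∑ j, (tau V x * T a * tau V x) i j * pd j u x := by
          rw [← Finset.sum_neg_distrib]
          refine Finset.sum_congr rfl fun j _ => ?_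
          ring
        rw [this]
        simp only [hess, Matrix.of_apply]
        ring
      rw [e4, hc, ← Finset.sum_neg_distrib]
      refine Finset.sum_congr rfl fun i _ => ?_
      have : (∑ a, ∑ b, -(tau V x * T i * tau V x) a b * pd a (pd b u) x)
          = - ∑ a, ∑ b, (tau V x * T i * tau V x) a b * hess u x a b := by
        rw [← Finset.sum_neg_distrib]
        refine Finset.sum_congr rfl fun a _ => ?_
        rw [← Finset.sum_neg_distrib]
        refine Finset.sum_congr rfl fun b _ => ?_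
        simp only [hess, Matrix.of_apply]
        ring
      rw [this]
      ring
    rw [e2, e3]
    ring
  -- assembly
  have hpL : ∀ i, PGC 0 (fun x => p i x * LL (tau V) (pd i u) x) := fun i =>
    (PGC.mono12 (by norm_num) (hp i)).mul12 (hLi i)
  have a1 : wint (WW V) (GA (tau V) (LL (tau V) u) u)
      = (∑ i, wint (WW V) (fun x => p i x * LL (tau V) (pd i u) x)) + wint (WW V) X
        - wint (WW V) (GA (tau V) u u) := by
    have e : GA (tau V) (LL (tau V) u) u = fun x =>
        ((∑ i, p i x * LL (tau V) (pd i u) x) + X x) - GA (tau V) u u x := by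
      funext x; exact s3 x
    rw [e, wint_sub hW ((PGC_sum' _ fun i _ => hpL i).add12 hX) hGA0,
      wint_add hW (PGC_sum' _ fun i _ => hpL i) hX, wint_sum _ hW fun i _ => hpL i]
  have a2 : (∑ i, wint (WW V) (GA (tau V) (p i) (pd i u)))
      = wint (WW V) (HN (tau V) u) + wint (WW V) X := by
    rw [← wint_sum _ hW fun i _ => pgc_GA hτ0 (hp i) (PGC.mono12 (by norm_num) (hu1 i))]
    rw [← wint_add hW hHN0 hX]
    congr 1
    funext x
    exact s5 x
  simp only [s4, Finset.sum_neg_distrib] at a2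
  linarith [s2, a1, a2]

end MM12
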