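import Pool.Agent.Helper12.MM.Defs

/-!
# Project MM: calculus of partial derivatives and the growth class (families)
-/

open MeasureTheory CM

namespace MM12

variable {n : ℕ}

/-! ### partial derivatives -/

theorem pd_add' {i : Fin n} {f g : E n → ℝ} {x : E n} (hf : DifferentiableAt ℝ f x)
    (hg : DifferentiableAt ℝ g x) : pd i (fun y => f y + g y) x = pd i f x + pd i g x := by
  unfold pd
  rw [fderiv_fun_add hf hg]; rfl

theorem pd_sub' {i : Fin n} {f g : E n → ℝ} {x : E n} (hf : DifferentiableAt ℝ f x)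
    (hg : DifferentiableAt ℝ g x) : pd i (fun y => f y - g y) x = pd i f x - pd i g x := by
  unfold pd
  rw [fderiv_fun_sub hf hg]; rfl

theorem pd_neg' {i : Fin n} {f : E n → ℝ} {x : E n} :
    pd i (fun y => - f y) x = - pd i f x := by
  unfold pd
  rw [fderiv_fun_neg]; rfl

theorem pd_mul' {i : Fin n} {f g : E n → ℝ} {x : E n} (hf : DifferentiableAt ℝ f x)
    (hg : DifferentiableAt ℝ g x) :
    pd i (fun y => f y * g y) x = pd i f x * g x + f x * pd i g x := by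
  unfold pd
  rw [fderiv_fun_mul hf hg]
  simp only [add_apply, smul_apply, smul_eq_mul]
  ring

theorem pd_const' {i : Fin n} {a : ℝ} {x : E n} : pd i (fun _ => a) x = 0 := by
  unfold pd
  simp

theorem pd_cmul' {i : Fin n} {a : ℝ} {f : E n → ℝ} {x : E n} (hf : DifferentiableAt ℝ f x) :
    pd i (fun y => a * f y) x = a * pd i f x := by
  unfold pd
  rw [fderiv_const_mul hf]; rfl

theorem pd_sum' {i : Fin n} {ι : Type*} {s : Finset ι} {f : ι → E n → ℝ} {x : E n}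
    (hf : ∀ a ∈ s, DifferentiableAt ℝ (f a) x) :
    pd i (fun y => ∑ a ∈ s, f a y) x = ∑ a ∈ s, pd i (f a) x := by
  unfold pd
  rw [fderiv_fun_sum hf]
  simp

theorem pd_coord' {i j : Fin n} {x : E n} : pd i (fun y : E n => y j) x = if i = j then 1 else 0 := by
  unfold pd
  have h : HasFDerivAt (fun y : E n => y j) (EuclideanSpace.proj j : E n →L[ℝ] ℝ) x :=
    (EuclideanSpace.proj j : E n →L[ℝ] ℝ).hasFDerivAt
  rw [h.fderiv]
  simp [eq_comm]

theorem contDiff_pd' {i : Fin n} {k : ℕ} {f : E n → ℝ} (hf : ContDiff ℝ ((k + 1 : ℕ) : WithTop ℕ∞) f) :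
    ContDiff ℝ (k : WithTop ℕ∞) (pd i f) := by
  unfold pd
  have h : ContDiff ℝ (k : WithTop ℕ∞) (fderiv ℝ f) :=
    hf.fderiv_right (by push_cast; exact le_rfl)
  exact h.clm_apply contDiff_const

theorem eul_eq {f : E n → ℝ} {x : E n} : eul f x = ∑ i, x i * pd i f x := by
  have hx : x = ∑ i, x i • (EuclideanSpace.single i (1 : ℝ) : E n) := by
    ext j
    simp [Pi.single_apply]
  have h := congrArg (fderiv ℝ f x) hx
  rw [map_sum] at h
  unfold eul pd
  rw [h]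
  refine Finset.sum_congr rfl fun i _ => ?_
  rw [map_smul, smul_eq_mul]

theorem contDiff_coord {k : WithTop ℕ∞} {j : Fin n} : ContDiff ℝ k (fun y : E n => y j) :=
  (EuclideanSpace.proj j : E n →L[ℝ] ℝ).contDiff

/-- symmetry of second derivatives -/
theorem pd_comm' {i j : Fin n} {f : E n → ℝ} (hf : ContDiff ℝ 2 f) (x : E n) :
    pd i (pd j f) x = pd j (pd i f) x := by
  have h2 : ∀ a b : Fin n, pd a (pd b f) x =
      fderiv ℝ (fderiv ℝ f) x (EuclideanSpace.single a (1 : ℝ)) (EuclideanSpace.single b (1 : ℝ)) := by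
    intro a b
    have hd : DifferentiableAt ℝ (fderiv ℝ f) x :=
      ((hf.fderiv_right (m := 1) (by norm_num)).differentiable (by norm_num)) x
    change fderiv ℝ (fun y => fderiv ℝ f y (EuclideanSpace.single b (1 : ℝ))) x _ = _
    rw [fderiv_clm_apply hd (differentiableAt_const _)]
    simp
  rw [h2, h2]
  have hs : IsSymmSndFDerivAt ℝ f x :=
    hf.contDiffAt.isSymmSndFDerivAt (by simp)
  exact hs _ _

theorem pdl_append {l : List (Fin n)} {i : Fin n} {f : E n → ℝ} :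
    pdl (l ++ [i]) f = pdl l (pd i f) := by
  induction l with
  | nil => rfl
  | cons a l ih => simp only [List.cons_append, pdl, ih]

/-! ### the growth class -/

theorem PC_succ {k : ℕ} {C : ℝ} {m : ℕ} {f : E n → ℝ} :
    PC (k + 1) C m f ↔ ContDiff ℝ ((k + 1 : ℕ) : WithTop ℕ∞) f ∧ (∀ x, |f x| ≤ C * (1 + ‖x‖) ^ m) ∧
      ∀ i, PC k C m (pd i f) := by
  constructor
  · rintro ⟨h1, h2⟩
    refine ⟨h1, fun x => h2 [] (by simp) x, fun i => ⟨contDiff_pd' h1, fun l hl x => ?_⟩⟩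
    have := h2 (l ++ [i]) (by simp; omega) x
    rwa [pdl_append] at this
  · rintro ⟨h1, h2, h3⟩
    refine ⟨h1, fun l hl x => ?_⟩
    rcases List.eq_nil_or_concat l with h | ⟨l', i, h⟩
    · subst h; exact h2 x
    · subst h
      rw [List.concat_eq_append] at hl ⊢
      rw [pdl_append]
      refine (h3 i).2 l' ?_ x
      simp at hl; omega

theorem PC_zero {C : ℝ} {m : ℕ} {f : E n → ℝ} :
    PC 0 C m f ↔ Continuous f ∧ ∀ x, |f x| ≤ C * (1 + ‖x‖) ^ m := by
  constructor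
  · rintro ⟨h1, h2⟩
    exact ⟨h1.continuous, fun x => h2 [] (by simp) x⟩
  · rintro ⟨h1, h2⟩
    refine ⟨contDiff_zero.2 h1, fun l hl x => ?_⟩
    have : l = [] := List.length_eq_zero_iff.1 (by omega)
    subst this
    exact h2 x

theorem PC_mono {k k' : ℕ} {C C' : ℝ} {m m' : ℕ} {f : E n → ℝ} (hf : PC k C m f) (hk : k' ≤ k)
    (hC : C ≤ C') (hC' : 0 ≤ C') (hm : m ≤ m') : PC k' C' m' f := by
  refine ⟨hf.1.of_le (by exact_mod_cast hk), fun l hl x => (hf.2 l (hl.trans hk) x).trans ?_⟩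
  have h1 : (1 : ℝ) ≤ 1 + ‖x‖ := by linarith [norm_nonneg x]
  exact mul_le_mul hC (pow_le_pow_right₀ h1 hm) (by positivity) hC'

/-- Families of functions in the growth class, uniformly. -/
def PF {ι : Type*} (k : ℕ) (f : ι → E n → ℝ) : Prop :=
  ∃ (C : ℝ) (m : ℕ), 0 ≤ C ∧ ∀ a, PC k C m (f a)

variable {ι : Type*}

theorem PF.contDiff {k : ℕ} {f : ι → E n → ℝ} (hf : PF k f) (a : ι) : ContDiff ℝ k (f a) := by
  obtain ⟨C, m, _, h⟩ := hf
  exact (h a).1

theorem PF.mono {k k' : ℕ} {f : ι → E n → ℝ} (hf : PF k f) (hk : k' ≤ k) : PF k' f := by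
  obtain ⟨C, m, hC, h⟩ := hf
  exact ⟨C, m, hC, fun a => PC_mono (h a) hk le_rfl hC le_rfl⟩

theorem PF.bound {k : ℕ} {f : ι → E n → ℝ} (hf : PF k f) :
    ∃ (C : ℝ) (m : ℕ), 0 ≤ C ∧ ∀ a x, |f a x| ≤ C * (1 + ‖x‖) ^ m := by
  obtain ⟨C, m, hC, h⟩ := hf
  exact ⟨C, m, hC, fun a x => (h a).2 [] (by simp) x⟩

theorem PF.pd {k : ℕ} {f : ι → E n → ℝ} (hf : PF (k + 1) f) (i : Fin n) :
    PF k (fun a => CM.pd i (f a)) := by
  obtain ⟨C, m, hC, h⟩ := hf
  exact ⟨C, m, hC, fun a => (PC_succ.1 (h a)).2.2 i⟩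

theorem PF_succ {k : ℕ} {f : ι → E n → ℝ} :
    PF (k + 1) f ↔ (∀ a, ContDiff ℝ ((k + 1 : ℕ) : WithTop ℕ∞) (f a)) ∧
      (∃ (C : ℝ) (m : ℕ), 0 ≤ C ∧ ∀ a x, |f a x| ≤ C * (1 + ‖x‖) ^ m) ∧
      ∀ i, PF k (fun a => CM.pd i (f a)) := by
  constructor
  · intro h
    exact ⟨fun a => h.contDiff a, h.bound, fun i => h.pd i⟩
  · rintro ⟨h1, ⟨C, m, hC, h2⟩, h3⟩
    choose D p hD h4 using h3
    have hS : 0 ≤ ∑ i, D i := Finset.sum_nonneg fun i _ => hD i
    refine ⟨C + ∑ i, D i, m + ∑ i, p i, by linarith, fun a => ?_⟩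
    have hs : ∀ i, D i ≤ ∑ i, D i := fun i => Finset.single_le_sum (fun j _ => hD j) (Finset.mem_univ i)
    have hp : ∀ i, p i ≤ ∑ i, p i :=
      fun i => Finset.single_le_sum (fun j _ => Nat.zero_le _) (Finset.mem_univ i)
    refine PC_succ.2 ⟨h1 a, fun x => (h2 a x).trans ?_, fun i => ?_⟩
    · have h5 : (1 : ℝ) ≤ 1 + ‖x‖ := by linarith [norm_nonneg x]
      exact mul_le_mul (by linarith) (pow_le_pow_right₀ h5 (by omega)) (by positivity)
        (by linarith)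
    · exact PC_mono (h4 i a) le_rfl (by linarith [hs i]) (by linarith) (by have := hp i; omega)

theorem PF_zero {f : ι → E n → ℝ} :
    PF 0 f ↔ (∀ a, Continuous (f a)) ∧
      (∃ (C : ℝ) (m : ℕ), 0 ≤ C ∧ ∀ a x, |f a x| ≤ C * (1 + ‖x‖) ^ m) := by
  constructor
  · intro h
    exact ⟨fun a => (h.contDiff a).continuous, h.bound⟩
  · rintro ⟨h1, ⟨C, m, hC, h2⟩⟩
    exact ⟨C, m, hC, fun a => PC_zero.2 ⟨h1 a, h2 a⟩⟩

theorem bound_add {f g : ι → E n → ℝ}
    (hf : ∃ (C : ℝ) (m : ℕ), 0 ≤ C ∧ ∀ a x, |f a x| ≤ C * (1 + ‖x‖) ^ m)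
    (hg : ∃ (C : ℝ) (m : ℕ), 0 ≤ C ∧ ∀ a x, |g a x| ≤ C * (1 + ‖x‖) ^ m) :
    ∃ (C : ℝ) (m : ℕ), 0 ≤ C ∧ ∀ a x, |f a x + g a x| ≤ C * (1 + ‖x‖) ^ m := by
  obtain ⟨C, m, hC, h⟩ := hf
  obtain ⟨D, p, hD, h'⟩ := hg
  refine ⟨C + D, m + p, by positivity, fun a x => (abs_add_le _ _).trans ?_⟩
  have h5 : (1 : ℝ) ≤ 1 + ‖x‖ := by linarith [norm_nonneg x]
  have e1 : C * (1 + ‖x‖) ^ m ≤ C * (1 + ‖x‖) ^ (m + p) :=
    mul_le_mul_of_nonneg_left (pow_le_pow_right₀ h5 (by omega)) hC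
  have e2 : D * (1 + ‖x‖) ^ p ≤ D * (1 + ‖x‖) ^ (m + p) :=
    mul_le_mul_of_nonneg_left (pow_le_pow_right₀ h5 (by omega)) hD
  nlinarith [h a x, h' a x]

theorem bound_mul {f g : ι → E n → ℝ}
    (hf : ∃ (C : ℝ) (m : ℕ), 0 ≤ C ∧ ∀ a x, |f a x| ≤ C * (1 + ‖x‖) ^ m)
    (hg : ∃ (C : ℝ) (m : ℕ), 0 ≤ C ∧ ∀ a x, |g a x| ≤ C * (1 + ‖x‖) ^ m) :
    ∃ (C : ℝ) (m : ℕ), 0 ≤ C ∧ ∀ a x, |f a x * g a x| ≤ C * (1 + ‖x‖) ^ m := by
  obtain ⟨C, m, hC, h⟩ := hf
  obtain ⟨D, p, hD, h'⟩ := hg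
  refine ⟨C * D, m + p, by positivity, fun a x => ?_⟩
  rw [abs_mul, pow_add]
  calc |f a x| * |g a x| ≤ (C * (1 + ‖x‖) ^ m) * (D * (1 + ‖x‖) ^ p) :=
        mul_le_mul (h a x) (h' a x) (abs_nonneg _) ((abs_nonneg _).trans (h a x))
    _ = C * D * ((1 + ‖x‖) ^ m * (1 + ‖x‖) ^ p) := by ring

theorem PF.add {k : ℕ} {f g : ι → E n → ℝ} (hf : PF k f) (hg : PF k g) :
    PF k (fun a x => f a x + g a x) := by
  induction k generalizing f g with
  | zero =>
    exact PF_zero.2 ⟨fun a => (hf.contDiff a).continuous.add (hg.contDiff a).continuous,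
      bound_add hf.bound hg.bound⟩
  | succ k ih =>
    refine PF_succ.2 ⟨fun a => (hf.contDiff a).add (hg.contDiff a), bound_add hf.bound hg.bound,
      fun i => ?_⟩
    have e : (fun a => CM.pd i (fun x => f a x + g a x)) =
        fun a x => CM.pd i (f a) x + CM.pd i (g a) x := by
      funext a x
      exact pd_add' ((hf.contDiff a).differentiable (by simp) x)
        ((hg.contDiff a).differentiable (by simp) x)
    rw [e]
    exact ih (hf.pd i) (hg.pd i)

theorem PF.mul {k : ℕ} {f g : ι → E n → ℝ} (hf : PF k f) (hg : PF k g) :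
    PF k (fun a x => f a x * g a x) := by
  induction k generalizing f g with
  | zero =>
    exact PF_zero.2 ⟨fun a => (hf.contDiff a).continuous.mul (hg.contDiff a).continuous,
      bound_mul hf.bound hg.bound⟩
  | succ k ih =>
    refine PF_succ.2 ⟨fun a => (hf.contDiff a).mul (hg.contDiff a), bound_mul hf.bound hg.bound,
      fun i => ?_⟩
    have e : (fun a => CM.pd i (fun x => f a x * g a x)) =
        fun a x => CM.pd i (f a) x * g a x + f a x * CM.pd i (g a) x := by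
      funext a x
      exact pd_mul' ((hf.contDiff a).differentiable (by simp) x)
        ((hg.contDiff a).differentiable (by simp) x)
    rw [e]
    exact (ih (hf.pd i) (hg.mono (by omega))).add (ih (hf.mono (by omega)) (hg.pd i))

theorem PF_const (k : ℕ) (b : ℝ) : PF k (fun (_ : ι) (_ : E n) => b) := by
  induction k generalizing b with
  | zero =>
    refine PF_zero.2 ⟨fun a => continuous_const, |b|, 0, abs_nonneg _, fun a x => by simp⟩
  | succ k ih =>
    refine PF_succ.2 ⟨fun a => contDiff_const, ⟨|b|, 0, abs_nonneg _, fun a x => by simp⟩,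
      fun i => ?_⟩
    have e : (fun (_ : ι) => CM.pd i (fun (_ : E n) => b)) = fun (_ : ι) (_ : E n) => 0 := by
      funext a x
      exact pd_const'
    rw [e]
    exact ih 0

theorem PF_coord (k : ℕ) (j : Fin n) : PF k (fun (_ : ι) (x : E n) => x j) := by
  have hb : ∃ (C : ℝ) (m : ℕ), 0 ≤ C ∧ ∀ (a : ι) (x : E n), |x j| ≤ C * (1 + ‖x‖) ^ m := by
    refine ⟨1, 1, zero_le_one, fun a x => ?_⟩
    have : ‖x j‖ ≤ ‖x‖ := EuclideanSpace.norm_eq x ▸ by
      rw [← Real.sqrt_sq (norm_nonneg (x j))]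
      exact Real.sqrt_le_sqrt (Finset.single_le_sum (f := fun i => ‖x i‖ ^ 2)
        (fun i _ => sq_nonneg _) (Finset.mem_univ j))
    rw [Real.norm_eq_abs] at this
    linarith
  cases k with
  | zero => exact PF_zero.2 ⟨fun a => contDiff_coord.continuous (n := 0), hb⟩
  | succ k =>
    refine PF_succ.2 ⟨fun a => contDiff_coord, hb, fun i => ?_⟩
    have e : (fun (_ : ι) => CM.pd i (fun (x : E n) => x j)) =
        fun (_ : ι) (_ : E n) => if i = j then (1 : ℝ) else 0 := by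
      funext a x
      exact pd_coord'
    rw [e]
    exact PF_const k _

theorem PF.neg {k : ℕ} {f : ι → E n → ℝ} (hf : PF k f) : PF k (fun a x => - f a x) := by
  have := (PF_const (ι := ι) (n := n) k (-1)).mul hf
  simpa using this

theorem PF.sub {k : ℕ} {f g : ι → E n → ℝ} (hf : PF k f) (hg : PF k g) :
    PF k (fun a x => f a x - g a x) := by
  have := hf.add hg.neg
  simpa [sub_eq_add_neg] using this

theorem PF.cmul {k : ℕ} {f : ι → E n → ℝ} (hf : PF k f) (b : ℝ) : PF k (fun a x => b * f a x) :=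
  (PF_const (ι := ι) (n := n) k b).mul hf

theorem PF_sum {k : ℕ} {κ : Type*} (s : Finset κ) {f : κ → ι → E n → ℝ}
    (hf : ∀ c ∈ s, PF k (f c)) : PF k (fun a x => ∑ c ∈ s, f c a x) := by
  classical
  induction s using Finset.induction_on with
  | empty => simpa using PF_const k 0
  | insert c s hc ih =>
    have e : (fun (a : ι) (x : E n) => ∑ c ∈ insert c s, f c a x) =
        fun a x => f c a x + ∑ c ∈ s, f c a x := by
      funext a x
      rw [Finset.sum_insert hc]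
    rw [e]
    exact (hf c (Finset.mem_insert_self _ _)).add
      (ih fun d hd => hf d (Finset.mem_insert_of_mem hd))

theorem PF.eul {k : ℕ} {f : ι → E n → ℝ} (hf : PF (k + 1) f) :
    PF k (fun a => CM.eul (f a)) := by
  have e : (fun a => CM.eul (f a)) = fun a x => ∑ i, x i * CM.pd i (f a) x := by
    funext a x
    exact eul_eq
  rw [e]
  exact PF_sum _ fun i _ => (PF_coord k i).mul (hf.pd i)

/-- single functions -/
theorem PF_of_PC {k : ℕ} {C : ℝ} {m : ℕ} {f : E n → ℝ} (h : PC k C m f) :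
    PF k (fun _ : Unit => f) := by
  have hC : 0 ≤ C := by
    have := (abs_nonneg _).trans (h.2 [] (by simp) 0)
    simpa using this
  exact ⟨C, m, hC, fun _ => h⟩

end MM12
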