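import Pool.Agent.Helper12.MM.L2
import Pool.Agent.Helper52.MM.Cut
import Pool.Agent.Helper72.CM.HBc
import Pool.Agent.Helper63.MM.Stein
import Pool.Agent.Helper17.MM.PGC
import Pool.Agent.Helper55.MM.VG

/-!
# Project MM, row B7a: density of `A (A - 1) h`
-/

open MeasureTheory CM
open scoped ContDiff

namespace MM12

variable {n : ℕ}

/-! ### compactly supported functions are `HB` -/

theorem H0_of_compact {f : E n → ℝ} (hf : ContDiff ℝ 1 f) (hs : HasCompactSupport f) :
    ∃ N, H0 N f := by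
  obtain ⟨B, hB⟩ := hs.exists_bound_of_continuous hf.continuous
  obtain ⟨L, hL⟩ := ContDiff.lipschitzWith_of_hasCompactSupport hs hf (by norm_num)
  have hB0 : 0 ≤ B := (norm_nonneg _).trans (hB 0)
  refine ⟨2 * B + L, fun x => ?_, fun x y => ?_⟩
  · have := hB x
    rw [Real.norm_eq_abs] at this
    have := L.2
    change (0 : ℝ) ≤ L at this
    linarith
  · have hL0 : (0 : ℝ) ≤ L := L.2
    have h1 : |f x - f y| ≤ L * dist x y := by
      have := hL.dist_le_mul x y
      rwa [Real.dist_eq] at this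
    have h2 : |f x - f y| ≤ 2 * B := by
      have a := hB x
      have b := hB y
      rw [Real.norm_eq_abs] at a b
      rw [abs_le] at a b ⊢
      constructor <;> linarith [a.1, a.2, b.1, b.2]
    have hs0 := Real.sqrt_nonneg (dist x y)
    have hd0 : 0 ≤ dist x y := dist_nonneg
    rcases le_total (dist x y) 1 with h | h
    · have h3 : dist x y ≤ Real.sqrt (dist x y) := by
        have : dist x y ^ 2 ≤ dist x y := by nlinarith
        exact Real.le_sqrt_of_sq_le this
      nlinarith [mul_le_mul_of_nonneg_left h3 hL0]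
    · have h3 : 1 ≤ Real.sqrt (dist x y) := Real.one_le_sqrt.2 h
      nlinarith

theorem HB_of_compact {k : ℕ} {f : E n → ℝ} (hf : ContDiff ℝ ((k + 1 : ℕ) : WithTop ℕ∞) f)
    (hs : HasCompactSupport f) : ∃ N, HB k N f := by
  induction k generalizing f with
  | zero =>
    obtain ⟨N, hN⟩ := H0_of_compact (by simpa using hf) hs
    exact ⟨N, CM72.HB_zero_iff.2 ⟨hf.continuous, hN⟩⟩
  | succ k ih =>
    obtain ⟨N, hN⟩ := H0_of_compact (hf.of_le (by norm_cast; omega)) hs
    have h1 : ∀ i, ∃ M, HB k M (pd i f) := fun i =>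
      ih (contDiff_pd' hf) (Pool.Agent.Helper52.MM.pd_hcs i hs)
    choose M hM using h1
    refine ⟨N + ∑ i, |M i|, CM72.HB_succ_iff.2 ⟨hf.of_le (by norm_cast; omega),
      CM72.H0_mono hN ?_, fun i => CM72.HB_mono (hM i) ?_⟩⟩
    · have : 0 ≤ ∑ i, |M i| := Finset.sum_nonneg fun i _ => abs_nonneg _
      linarith
    · have h2 : |M i| ≤ ∑ i, |M i| :=
        Finset.single_le_sum (f := fun i => |M i|) (fun i _ => abs_nonneg _) (Finset.mem_univ i)
      have h3 : 0 ≤ N := CM72.H0_nonneg hN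
      linarith [le_abs_self (M i)]

/-! ### approximation by smooth even functions of compact support -/

theorem wint_comp_neg {W f : E n → ℝ} (hW : IsEv W) : wint W (fun x => f (-x)) = wint W f := by
  have h := integral_neg_eq_self (fun x => f x * Real.exp (-(W x))) (volume : Measure (E n))
  have e : (fun x : E n => f (-x) * Real.exp (-(W (-x)))) =
      fun x => f (-x) * Real.exp (-(W x)) := by
    funext x
    rw [hW]
  rw [e] at h
  exact h

theorem PGC_of_compact {f : E n → ℝ} (hf : Continuous f) (hs : HasCompactSupport f) : PGC 0 f := by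
  obtain ⟨B, hB⟩ := hs.exists_bound_of_continuous hf
  exact CM.H17.pgc_zero_iff.2 ⟨hf, CM.H17.pg_of_bd hB⟩

theorem approx_even {W r : E n → ℝ} (hW : WC W) (hWe : IsEv W) (hr : PGC 0 r) (hre : IsEv r)
    {η : ℝ} (hη : 0 < η) :
    ∃ y : E n → ℝ, ContDiff ℝ ∞ y ∧ HasCompactSupport y ∧ IsEv y ∧
      wint W (fun x => (r x - y x) ^ 2) < η := by
  obtain ⟨hWc, K, hK⟩ := hW
  have hW' : WC W := ⟨hWc, K, hK⟩
  have : IsFiniteMeasure (Pool.Agent.Helper31.MM.muW W) :=
    Pool.Agent.Helper31.MM.isFiniteMeasure_muW W K hK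
  have hint : Integrable (fun x => r x ^ 2) (Pool.Agent.Helper31.MM.muW W) :=
    Pool.Agent.Helper31.MM.integrable_muW W hWc _ (int_pgc hW' hr.pow12)
  have hmem : MemLp r 2 (Pool.Agent.Helper31.MM.muW W) :=
    (memLp_two_iff_integrable_sq hr.cont12.aestronglyMeasurable).2 hint
  obtain ⟨y, hy1, hy2, hy3⟩ := hmem.exist_eLpNorm_sub_le (by norm_num) (by norm_num)
    (ε := Real.sqrt (η / 2)) (by positivity)
  have hy0 : PGC 0 y := PGC_of_compact hy2.continuous hy1
  have h1 : wint W (fun x => (r x - y x) ^ 2) ≤ η / 2 := by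
    have hm : MemLp (r - y) 2 (Pool.Agent.Helper31.MM.muW W) := by
      refine (memLp_two_iff_integrable_sq
        (hr.cont12.sub hy2.continuous).aestronglyMeasurable).2 ?_
      exact Pool.Agent.Helper31.MM.integrable_muW W hWc _ (int_pgc hW' (hr.sub12 hy0).pow12)
    have e1 := hm.eLpNorm_eq_integral_rpow_norm (by norm_num) (by norm_num)
    rw [e1] at hy3
    have e2 : (∫ a, ‖(r - y) a‖ ^ (2 : ENNReal).toReal ∂(Pool.Agent.Helper31.MM.muW W))
        = wint W (fun x => (r x - y x) ^ 2) := by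
      unfold wint
      rw [← Pool.Agent.Helper31.MM.integral_muW W hWc]
      refine integral_congr_ae (Filter.Eventually.of_forall fun x => ?_)
      simp
    rw [e2] at hy3
    have h0 : 0 ≤ wint W (fun x => (r x - y x) ^ 2) := wint_nonneg fun x => sq_nonneg _
    have h3 := (ENNReal.ofReal_le_ofReal_iff (Real.sqrt_nonneg _)).1 hy3
    have h4 : (2 : ENNReal).toReal⁻¹ = 1 / 2 := by simp
    rw [h4, ← Real.sqrt_eq_rpow] at h3
    exact (Real.sqrt_le_sqrt_iff (by positivity)).1 h3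
  refine ⟨fun x => (y x + y (-x)) / 2, ?_, ?_, ?_, ?_⟩
  · exact (hy2.add (hy2.comp contDiff_neg)).div_const 2
  · have hn : HasCompactSupport (fun x => y (-x)) :=
      hy1.comp_homeomorph (Homeomorph.neg (E n))
    have := (hy1.add hn).comp_left (g := fun t : ℝ => t / 2) (by simp)
    exact this
  · intro x
    simp only [neg_neg]
    ring
  · have hy0' : PGC 0 (fun x => y (-x)) := PGC_of_compact (hy2.continuous.comp continuous_neg)
      (hy1.comp_homeomorph (Homeomorph.neg (E n)))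
    have hd := hr.sub12 hy0
    have hd' : PGC 0 (fun x => r x - y (-x)) := hr.sub12 hy0'
    have h2 : wint W (fun x => (r x - y (-x)) ^ 2) = wint W (fun x => (r x - y x) ^ 2) := by
      have := wint_comp_neg (f := fun x => (r x - y x) ^ 2) hWe
      rw [← this]
      congr 1
      funext x
      rw [hre x]
    have h3 : wint W (fun x => (r x - (y x + y (-x)) / 2) ^ 2)
        ≤ wint W (fun x => (1 / 2) * (r x - y x) ^ 2 + (1 / 2) * (r x - y (-x)) ^ 2) := by
      refine wint_mono hW' ?_ (((PGC_const' 0 _).mul12 hd.pow12).add12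
        ((PGC_const' 0 _).mul12 hd'.pow12)) fun x => ?_
      · have e : (fun x => (r x - (y x + y (-x)) / 2) ^ 2) =
            fun x => (r x - (1 / 2) * (y x + y (-x))) ^ 2 := by
          funext x; ring
        rw [e]
        exact (hr.sub12 ((PGC_const' 0 _).mul12 (hy0.add12 hy0'))).pow12
      · nlinarith [sq_nonneg ((r x - y x) - (r x - y (-x)))]
    rw [wint_add hW' ((PGC_const' 0 _).mul12 hd.pow12) ((PGC_const' 0 _).mul12 hd'.pow12),
      wint_cmul, wint_cmul, h2] at h3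
    linarith

/-! ### linearity of the operator -/

theorem hess_add' {f g : E n → ℝ} (hf : ContDiff ℝ 2 f) (hg : ContDiff ℝ 2 g) (x : E n) :
    hess (fun y => f y + g y) x = hess f x + hess g x := by
  ext i j
  have e : pd j (fun y => f y + g y) = fun y => pd j f y + pd j g y := by
    funext y
    exact pd_add' (hf.differentiable (by norm_num) y) (hg.differentiable (by norm_num) y)
  have h1 : ∀ {k : E n → ℝ}, ContDiff ℝ 2 k → DifferentiableAt ℝ (pd j k) x := fun hk =>
    (contDiff_pd' (k := 1) hk).differentiable (by simp) x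
  change pd i (pd j (fun y => f y + g y)) x = pd i (pd j f) x + pd i (pd j g) x
  rw [e, pd_add' (h1 hf) (h1 hg)]

theorem hess_cmul' {f : E n → ℝ} (hf : ContDiff ℝ 2 f) (a : ℝ) (x : E n) :
    hess (fun y => a * f y) x = a • hess f x := by
  ext i j
  have e : pd j (fun y => a * f y) = fun y => a * pd j f y := by
    funext y
    exact pd_cmul' (hf.differentiable (by norm_num) y)
  change pd i (pd j (fun y => a * f y)) x = a * pd i (pd j f) x
  rw [e, pd_cmul' ((contDiff_pd' (k := 1) hf).differentiable (by simp) x)]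

theorem AK_lin {τ : E n → Mt n} {k : ℝ} {f g : E n → ℝ} (hf : ContDiff ℝ 2 f)
    (hg : ContDiff ℝ 2 g) (a : ℝ) (x : E n) :
    AK τ k (fun y => f y + a * g y) x = AK τ k f x + a * AK τ k g x := by
  have hg' : ContDiff ℝ 2 (fun y => a * g y) := contDiff_const.mul hg
  have e1 : eul (fun y => f y + a * g y) x = eul f x + a * eul g x := by
    rw [eul_eq, eul_eq, eul_eq, Finset.mul_sum, ← Finset.sum_add_distrib]
    refine Finset.sum_congr rfl fun i _ => ?_
    rw [pd_add' (hf.differentiable (by norm_num) x) (hg'.differentiable (by norm_num) x),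
      pd_cmul' (hg.differentiable (by norm_num) x)]
    ring
  have e2 : tr2 (τ x) (hess (fun y => f y + a * g y) x)
      = tr2 (τ x) (hess f x) + a * tr2 (τ x) (hess g x) := by
    rw [hess_add' hf hg', hess_cmul' hg]
    unfold tr2
    rw [Finset.mul_sum, ← Finset.sum_add_distrib]
    refine Finset.sum_congr rfl fun i _ => ?_
    rw [Finset.mul_sum, ← Finset.sum_add_distrib]
    refine Finset.sum_congr rfl fun j _ => ?_
    simp only [Matrix.add_apply, Matrix.smul_apply, smul_eq_mul]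
    ring
  unfold AK LL
  rw [e1, e2]
  ring

/-! ### quadratic inequalities -/

theorem nn_add {W f g : E n → ℝ} (hW : WC W) (hf : PGC 0 f) (hg : PGC 0 g) {θ : ℝ} (hθ : 0 < θ) :
    wint W (fun x => (f x + g x) ^ 2)
      ≤ (1 + θ) * wint W (fun x => f x ^ 2) + (1 + 1 / θ) * wint W (fun x => g x ^ 2) := by
  rw [← wint_cmul, ← wint_cmul, ← wint_add hW ((PGC_const' 0 _).mul12 hf.pow12)
    ((PGC_const' 0 _).mul12 hg.pow12)]
  refine wint_mono hW (hf.add12 hg).pow12 (((PGC_const' 0 _).mul12 hf.pow12).add12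
    ((PGC_const' 0 _).mul12 hg.pow12)) fun x => ?_
  have h1 : 0 ≤ (θ * f x - g x) ^ 2 / θ := by positivity
  have h2 : (θ * f x - g x) ^ 2 / θ = θ * f x ^ 2 - 2 * (f x * g x) + 1 / θ * g x ^ 2 := by
    field_simp
    ring
  nlinarith

section
variable {c K CP : ℝ} {V : E n → ℝ}

theorem L2D.wint_LL (h : L2D c K CP V) {u : E n → ℝ} (hu : PGC 2 u) :
    wint (WW V) (LL (tau V) u) = 0 := by
  have h1 := h.dir (fun _ => 1) u (PGC_const' 1 1) hu
  have e1 : GA (tau V) (fun _ => 1) u = fun _ => 0 := by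
    funext x
    unfold GA
    refine Finset.sum_eq_zero fun i _ => Finset.sum_eq_zero fun j _ => ?_
    rw [pd_const']
    ring
  rw [e1, wint_zero, wint_neg] at h1
  simp only [one_mul] at h1
  have e2 : (fun x => LL (tau V) u x) = LL (tau V) u := rfl
  rw [e2] at h1
  linarith

/-- the contraction estimate for `ρ ↦ ρ - D⁻¹ (ρ + Rρ)`. -/
theorem L2D.contract (h : L2D c K CP V) {ρ u : E n → ℝ} (hu : PGC 3 u) (he : IsEv u)
    (hρ0 : PGC 0 ρ) (hρ : ∀ x, AK (tau V) 1 u x = ρ x) (hm : wint (WW V) ρ = 0) :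
    wint (WW V) (fun x => (ρ x - 1 / DD n c K CP * AK (tau V) 0 u x) ^ 2)
      ≤ (1 - 1 / (4 * DD n c K CP ^ 2)) * wint (WW V) (fun x => ρ x ^ 2) := by
  have hW := WC_of_VG h.vg
  set D := DD n c K CP with hD
  have hD1 : 1 ≤ D := (DD_bounds n h.c_pos h.CP_nn).1
  have hDp : 0 < D := by linarith
  have hL0 : PGC 0 (LL (tau V) u) := PGC.mono12 (by norm_num) (pgc_LL h.tau1 hu)
  have hu0 : PGC 0 u := PGC.mono12 (by norm_num) hu
  set a : E n → ℝ := AK (tau V) 0 u with ha
  have ea : ∀ x, a x = - LL (tau V) u x := fun x => by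
    rw [ha]; unfold AK; ring
  have eρ : ∀ x, ρ x = a x - u x := fun x => by
    rw [← hρ x, ea]; unfold AK; ring
  have ha0 : PGC 0 a := by
    have : a = fun x => - LL (tau V) u x := funext ea
    rw [this]
    exact hL0.neg12
  set b := wint (WW V) (HN (tau V) u) with hb
  have hb1 : b = wint (WW V) (fun x => a x * ρ x) := by
    rw [hb, h.b_eq hu]
    congr 1
    funext x
    rw [eρ, ea]
    ring
  have ha2 : wint (WW V) (fun x => a x ^ 2) ≤ D * b := by
    have := h.LL_le hu he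
    have e : (fun x => a x ^ 2) = fun x => LL (tau V) u x ^ 2 := by
      funext x; rw [ea]; ring
    rw [e]
    exact this
  have hwa : wint (WW V) a = 0 := by
    have e : a = fun x => - LL (tau V) u x := funext ea
    rw [e, wint_neg]
    have := h.wint_LL (PGC.mono12 (by norm_num) hu : PGC 2 u)
    rw [this]
    simp
  have hwu : wint (WW V) u = 0 := by
    have e : u = fun x => a x - ρ x := by
      funext x; rw [eρ]; ring
    rw [e, wint_sub hW ha0 hρ0, hwa, hm]
    simp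
  have hu2 := h.sq_le hu he hwu
  have hρ2 : wint (WW V) (fun x => ρ x ^ 2) ≤ 4 * D * b := by
    have h1 := nn_add hW ha0 hu0.neg12 (θ := 1) one_pos
    have e : (fun x => (a x + - u x) ^ 2) = fun x => ρ x ^ 2 := by
      funext x; rw [eρ]; ring
    have e2 : (fun x => (- u x) ^ 2) = fun x => u x ^ 2 := by
      funext x; ring
    rw [e, e2] at h1
    linarith
  have hexp : wint (WW V) (fun x => (ρ x - 1 / D * a x) ^ 2)
      = wint (WW V) (fun x => ρ x ^ 2) - 2 / D * wint (WW V) (fun x => a x * ρ x)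
        + 1 / D ^ 2 * wint (WW V) (fun x => a x ^ 2) := by
    have e : (fun x => (ρ x - 1 / D * a x) ^ 2) =
        fun x => (ρ x ^ 2 - 2 / D * (a x * ρ x)) + 1 / D ^ 2 * a x ^ 2 := by
      funext x
      field_simp
      ring
    rw [e, wint_add hW (hρ0.pow12.sub12 ((PGC_const' 0 _).mul12 (ha0.mul12 hρ0)))
      ((PGC_const' 0 _).mul12 ha0.pow12), wint_sub hW hρ0.pow12
      ((PGC_const' 0 _).mul12 (ha0.mul12 hρ0)), wint_cmul, wint_cmul]
  rw [hexp, ← hb1]
  have h5 : 1 / D ^ 2 * wint (WW V) (fun x => a x ^ 2) ≤ 1 / D * b := by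
    calc 1 / D ^ 2 * wint (WW V) (fun x => a x ^ 2) ≤ 1 / D ^ 2 * (D * b) :=
          mul_le_mul_of_nonneg_left ha2 (by positivity)
      _ = 1 / D * b := by field_simp
  have h6 : 1 / (4 * D ^ 2) * wint (WW V) (fun x => ρ x ^ 2) ≤ 1 / D * b := by
    calc 1 / (4 * D ^ 2) * wint (WW V) (fun x => ρ x ^ 2) ≤ 1 / (4 * D ^ 2) * (4 * D * b) :=
          mul_le_mul_of_nonneg_left hρ2 (by positivity)
      _ = 1 / D * b := by field_simp
  have h7 : 2 / D * b = 1 / D * b + 1 / D * b := by ring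
  nlinarith

/-- the admissible functions -/
def ZZ (z : E n → ℝ) : Prop := IsEv z ∧ ContDiff ℝ 5 z ∧ HasCompactSupport z

theorem ZZ_AK {z : E n → ℝ} (h : L2D c K CP V) (hz : ZZ z) : PGC 0 (AK (tau V) 0 z) := by
  have hz5 : PGC 2 z := by
    obtain ⟨N, hN⟩ := HB_of_compact (k := 2) (hz.2.1.of_le (by norm_num)) hz.2.2
    exact CM.H17.pgc_of_HB hN
  have e : AK (tau V) 0 z = fun x => - LL (tau V) z x := by
    funext x; unfold AK; ring
  rw [e]
  exact (pgc_LL h.tau0 hz5).neg12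

theorem L2D.step (h : L2D c K CP V) (hLS : LinSolv V) {g : E n → ℝ} (hg : PGC 0 g)
    (hge : IsEv g) (hgm : wint (WW V) g = 0) {z : E n → ℝ} (hz : ZZ z) {η : ℝ} (hη : 0 < η) :
    ∃ z' : E n → ℝ, ZZ z' ∧ wint (WW V) (fun x => (g x - AK (tau V) 0 z' x) ^ 2)
      ≤ (1 - 1 / (16 * DD n c K CP ^ 2)) * wint (WW V) (fun x => (g x - AK (tau V) 0 z x) ^ 2)
        + η := by
  have hW := WC_of_VG h.vg
  have hWe := WW_even h.even
  set D := DD n c K CP with hD
  have hD1 : 1 ≤ D := (DD_bounds n h.c_pos h.CP_nn).1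
  have hDp : 0 < D := by linarith
  set θ : ℝ := 1 / (16 * D ^ 2) with hθ
  have hθ0 : 0 < θ := by positivity
  have hθ1 : θ ≤ 1 / 16 := by
    rw [hθ]
    apply one_div_le_one_div_of_le (by norm_num)
    nlinarith
  have h4θ : 1 / (4 * D ^ 2) = 4 * θ := by rw [hθ]; field_simp; norm_num
  set η' : ℝ := η / (6 * (1 + 1 / θ)) with hη'
  have hcst : 0 < 6 * (1 + 1 / θ) := by positivity
  have hη0 : 0 < η' := by positivity
  -- the remainder
  set r : E n → ℝ := fun x => g x - AK (tau V) 0 z x with hr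
  have hAz : PGC 0 (AK (tau V) 0 z) := ZZ_AK h hz
  have hr0 : PGC 0 r := hg.sub12 hAz
  have hre : IsEv r := by
    intro x
    simp only [hr]
    rw [hge, AK_even h.even hz.1]
  have hz2 : PGC 2 z := by
    obtain ⟨N, hN⟩ := HB_of_compact (k := 2) (hz.2.1.of_le (by norm_num)) hz.2.2
    exact CM.H17.pgc_of_HB hN
  have hrm : wint (WW V) r = 0 := by
    simp only [hr]
    rw [wint_sub hW hg hAz, hgm]
    have e : AK (tau V) 0 z = fun x => - LL (tau V) z x := by
      funext x; unfold AK; ring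
    rw [e, wint_neg]
    have := h.wint_LL hz2
    rw [this]
    simp
  -- approximation
  obtain ⟨y, hy1, hy2, hy3, hy4⟩ := approx_even hW hWe hr0 hre hη0
  have hy0 : PGC 0 y := PGC_of_compact hy1.continuous hy2
  set Z : ℝ := wint (WW V) (fun _ => 1) with hZ
  have hZ0 : 0 ≤ Z := wint_nonneg fun _ => zero_le_one
  set m : ℝ := wint (WW V) y / Z with hm
  have hZm : wint (WW V) y = m * Z := by
    rcases hZ0.eq_or_lt with h0 | h0
    · -- impossible, but the identity holds anyway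
      have hpos : 0 < Z := by
        rw [hZ]
        unfold wint
        obtain ⟨h1, K', h2⟩ := hW
        have hi := int_pgc ⟨h1, K', h2⟩ (PGC_const' (n := n) 0 1)
        rw [integral_pos_iff_support_of_nonneg (fun x => by positivity) hi]
        have : Function.support (fun x : E n => (1 : ℝ) * Real.exp (-(WW V x))) = Set.univ := by
          ext x
          simp [(Real.exp_pos _).ne']
        rw [this]
        exact Measure.measure_univ_pos.2 (NeZero.ne _)
      linarith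
    · rw [hm]; field_simp
  set ρ : E n → ℝ := fun x => y x - m with hρ
  have hρ0 : PGC 0 ρ := hy0.sub12 (PGC_const' 0 m)
  have hρm : wint (WW V) ρ = 0 := by
    simp only [hρ]
    rw [wint_sub hW hy0 (PGC_const' 0 m)]
    have : wint (WW V) (fun _ => m) = m * Z := by
      rw [hZ, ← wint_cmul]
      simp
    rw [this, hZm]
    simp
  have hρe : IsEv ρ := fun x => by simp only [hρ]; rw [hy3]
  have he1 : wint (WW V) (fun x => (r x - ρ x) ^ 2) < η' := by
    have e : (fun x => (r x - ρ x) ^ 2) =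
        fun x => ((r x - y x) ^ 2 + 2 * m * (r x - y x)) + m ^ 2 * 1 := by
      funext x
      simp only [hρ]
      ring
    rw [e, wint_add hW ((hr0.sub12 hy0).pow12.add12 ((PGC_const' 0 _).mul12 (hr0.sub12 hy0)))
      ((PGC_const' 0 _).mul12 (PGC_const' 0 _)), wint_add hW (hr0.sub12 hy0).pow12
      ((PGC_const' 0 _).mul12 (hr0.sub12 hy0)), wint_cmul, wint_cmul, wint_sub hW hr0 hy0, hrm,
      hZm, ← hZ]
    nlinarith [sq_nonneg m]
  -- solve
  obtain ⟨N, hN⟩ := HB_of_compact (k := 3) (contDiff_infty.1 hy1 4) hy2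
  have hρHB : HB 3 (N + |m|) ρ := CM72.HB_sub hN (CM72.HB_const 3 m le_rfl)
  obtain ⟨u, M, hue, huH, huA⟩ := hLS ρ _ hρe hρHB
  have hu5 : PGC 5 u := CM.H17.pgc_of_H2 huH
  have hu3 : PGC 3 u := PGC.mono12 (by norm_num) hu5
  set a : E n → ℝ := AK (tau V) 0 u with ha
  have hL0 : PGC 0 (LL (tau V) u) := PGC.mono12 (by norm_num) (pgc_LL h.tau1 hu3)
  have ha0 : PGC 0 a := by
    have e : a = fun x => - LL (tau V) u x := by
      funext x; rw [ha]; unfold AK; ring
    rw [e]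
    exact hL0.neg12
  have hcon := h.contract hu3 hue hρ0 huA hρm
  rw [← ha, ← hD] at hcon
  -- cut off
  obtain ⟨hWc, K', hK'⟩ := hW
  have hW' : WC (WW V) := ⟨hWc, K', hK'⟩
  have hint : ∀ k : ℕ, Integrable (fun x : E n => (1 + ‖x‖) ^ k * Real.exp (-(WW V x))) := by
    intro k
    refine integrable_pg hWc hK' (by fun_prop) ⟨1, k, fun x => ?_⟩
    rw [one_mul, abs_of_nonneg (by positivity)]
  have hPF : PF 5 (fun _ : Unit => u) := PGC_iff.1 hu5
  obtain ⟨C0, m0, hC0, hb0⟩ := hPF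
  have hcc := Pool.Agent.Helper52.MM.cut_exists (WW V) hWc hint (tau V)
    (fun i j => (h.tau0 i j).cont12) (1 / c)
    (fun x i j => MM27.mat_inv_entry h.c_pos (CM.H31.hess_symm h.V2 x) (h.lo x) i j) 0 u 5
    (by norm_num) (by exact_mod_cast hu5.1) C0 m0
    (fun x => (hb0 ()).2 [] (by simp) x) (fun i x => (hb0 ()).2 [i] (by simp) x)
    (fun i j x => (hb0 ()).2 [i, j] (by simp) x) η' hη0
  obtain ⟨χ, hχ1, hχ2, hχ3, -, -, hχ4, hχ5, -, hχ6⟩ := hcc
  -- the new function
  set φ : E n → ℝ := fun x => χ x * u x with hφ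
  have hφZ : ZZ φ := ⟨fun x => by simp only [hφ]; rw [hχ3, hue], by exact_mod_cast hχ4, hχ5⟩
  have hz'1 : ZZ (fun x => z x + 1 / D * φ x) := by
    refine ⟨fun x => ?_, hz.2.1.add (contDiff_const.mul hφZ.2.1), ?_⟩
    · change z (-x) + 1 / D * φ (-x) = z x + 1 / D * φ x
      rw [hz.1, hφZ.1]
    · exact hz.2.2.add (hφZ.2.2.mul_left (f := fun _ => 1 / D))
  refine ⟨fun x => z x + 1 / D * φ x, hz'1, ?_⟩
  have hAφ : PGC 0 (AK (tau V) 0 φ) := ZZ_AK h hφZ
  set e2 : E n → ℝ := fun x => AK (tau V) 0 φ x - a x with he2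
  have he20 : PGC 0 e2 := hAφ.sub12 ha0
  have hee : (fun x => (g x - AK (tau V) 0 (fun x => z x + 1 / D * φ x) x) ^ 2)
      = fun x => ((ρ x - 1 / D * a x) + ((r x - ρ x) + (-(1 / D)) * e2 x)) ^ 2 := by
    funext x
    rw [AK_lin (hz.2.1.of_le (by norm_num)) (hφZ.2.1.of_le (by norm_num))]
    simp only [he2, hr]
    ring
  rw [hee]
  have q1 := nn_add hW' (hρ0.sub12 ((PGC_const' 0 (1 / D)).mul12 ha0))
    ((hr0.sub12 hρ0).add12 ((PGC_const' 0 (-(1 / D))).mul12 he20)) hθ0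
  have q2 := nn_add hW' (hr0.sub12 hρ0) ((PGC_const' 0 (-(1 / D))).mul12 he20) (θ := 1) one_pos
  have q3 : wint (WW V) (fun x => (-(1 / D) * e2 x) ^ 2) ≤ η' := by
    have e : (fun x => (-(1 / D) * e2 x) ^ 2) = fun x => (1 / D) ^ 2 * e2 x ^ 2 := by
      funext x; ring
    rw [e, wint_cmul]
    have h1 : wint (WW V) (fun x => e2 x ^ 2) < η' := hχ6
    have h2 : 0 ≤ wint (WW V) (fun x => e2 x ^ 2) := wint_nonneg fun x => sq_nonneg _
    have h3 : (1 / D) ^ 2 ≤ 1 := by
      have : 1 / D ≤ 1 := by rw [div_le_one hDp]; exact hD1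
      have h0 : 0 ≤ 1 / D := by positivity
      nlinarith
    nlinarith
  have q4 : wint (WW V) (fun x => ρ x ^ 2)
      ≤ (1 + θ) * wint (WW V) (fun x => r x ^ 2) + (1 + 1 / θ) * η' := by
    have := nn_add hW' hr0 ((PGC_const' 0 (-1)).mul12 (hr0.sub12 hρ0)) hθ0
    have e : (fun x => (r x + -1 * (r x - ρ x)) ^ 2) = fun x => ρ x ^ 2 := by
      funext x; ring
    have e' : (fun x => (-1 * (r x - ρ x)) ^ 2) = fun x => (r x - ρ x) ^ 2 := by
      funext x; ring
    rw [e, e'] at this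
    have h1 : (1 + 1 / θ) * wint (WW V) (fun x => (r x - ρ x) ^ 2) ≤ (1 + 1 / θ) * η' :=
      mul_le_mul_of_nonneg_left he1.le (by positivity)
    linarith
  rw [h4θ] at hcon
  set X := wint (WW V) (fun x => r x ^ 2) with hX
  have hX0 : 0 ≤ X := wint_nonneg fun x => sq_nonneg _
  have hP0 : 0 ≤ wint (WW V) (fun x => ρ x ^ 2) := wint_nonneg fun x => sq_nonneg _
  have hq : 0 ≤ 1 - 4 * θ := by linarith
  have s1 : (1 + θ) * wint (WW V) (fun x => (ρ x - 1 / D * a x) ^ 2)
      ≤ (1 - θ) * X + 2 * (1 + 1 / θ) * η' := by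
    have t1 : (1 + θ) * wint (WW V) (fun x => (ρ x - 1 / D * a x) ^ 2)
        ≤ (1 + θ) * ((1 - 4 * θ) * ((1 + θ) * X + (1 + 1 / θ) * η')) :=
      mul_le_mul_of_nonneg_left (hcon.trans (mul_le_mul_of_nonneg_left q4 hq)) (by linarith)
    have t2 : (1 + θ) * ((1 - 4 * θ) * (1 + θ)) ≤ 1 - θ := by
      have e : (1 + θ) * ((1 - 4 * θ) * (1 + θ)) = 1 - 2 * θ - 7 * θ ^ 2 - 4 * θ ^ 3 := by ring
      have p2 := pow_pos hθ0 2
      have p3 := pow_pos hθ0 3
      linarith
    have t3 : (1 + θ) * (1 - 4 * θ) ≤ 2 := by nlinarith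
    have t4 : 0 ≤ (1 + 1 / θ) * η' := by positivity
    calc _ ≤ _ := t1
      _ = ((1 + θ) * ((1 - 4 * θ) * (1 + θ))) * X + ((1 + θ) * (1 - 4 * θ)) * ((1 + 1 / θ) * η') := by
          ring
      _ ≤ (1 - θ) * X + 2 * ((1 + 1 / θ) * η') :=
          add_le_add (mul_le_mul_of_nonneg_right t2 hX0) (mul_le_mul_of_nonneg_right t3 t4)
      _ = _ := by ring
  have s2 : (1 + 1 / θ) * wint (WW V) (fun x => ((r x - ρ x) + -(1 / D) * e2 x) ^ 2)
      ≤ (1 + 1 / θ) * (4 * η') := by
    refine mul_le_mul_of_nonneg_left ?_ (by positivity)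
    have : (1 + 1 / (1 : ℝ)) = 2 := by norm_num
    rw [this] at q2
    linarith
  have s3 : 6 * (1 + 1 / θ) * η' = η := by
    rw [hη']; field_simp
  linarith

theorem L2D.approx (h : L2D c K CP V) (hLS : LinSolv V) {g : E n → ℝ} (hg : PGC 0 g)
    (hge : IsEv g) (hgm : wint (WW V) g = 0) {ε : ℝ} (hε : 0 < ε) :
    ∃ z : E n → ℝ, ZZ z ∧ wint (WW V) (fun x => (g x - AK (tau V) 0 z x) ^ 2) < ε := by
  by_contra hcon
  push Not at hcon
  set D := DD n c K CP with hD
  have hD1 : 1 ≤ D := (DD_bounds n h.c_pos h.CP_nn).1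
  set θ : ℝ := 1 / (16 * D ^ 2) with hθ
  have hθ0 : 0 < θ := by positivity
  set S : Set ℝ := {t | ∃ z : E n → ℝ, ZZ z ∧ t = wint (WW V) (fun x => (g x - AK (tau V) 0 z x) ^ 2)}
    with hS
  have hne : S.Nonempty := by
    refine ⟨_, fun _ => 0, ⟨fun _ => rfl, contDiff_const, ?_⟩, rfl⟩
    exact HasCompactSupport.zero
  have hbd : BddBelow S := ⟨ε, fun t ht => by
    obtain ⟨z, hz, rfl⟩ := ht
    exact hcon z hz⟩
  set d := sInf S with hd
  have hd0 : ε ≤ d := le_csInf hne fun t ht => by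
    obtain ⟨z, hz, rfl⟩ := ht
    exact hcon z hz
  have hdp : 0 < d := by linarith
  obtain ⟨t, ⟨z, hz, rfl⟩, ht⟩ := exists_lt_of_csInf_lt hne
    (show sInf S < d + θ * d / 4 by rw [← hd]; have : 0 < θ * d := by positivity
                                    linarith)
  obtain ⟨z', hz', hle⟩ := h.step hLS hg hge hgm hz (η := θ * d / 4) (by positivity)
  rw [← hD, ← hθ] at hle
  have h1 : d ≤ wint (WW V) (fun x => (g x - AK (tau V) 0 z' x) ^ 2) := csInf_le hbd ⟨z', hz', rfl⟩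
  have hθ1 : θ ≤ 1 / 16 := by
    rw [hθ]
    apply one_div_le_one_div_of_le (by norm_num)
    nlinarith
  have h2 : (1 - θ) * wint (WW V) (fun x => (g x - AK (tau V) 0 z x) ^ 2)
      ≤ (1 - θ) * (d + θ * d / 4) := mul_le_mul_of_nonneg_left ht.le (by linarith)
  have h3 : 0 < θ * d := by positivity
  nlinarith

end

/-- `L2D` for solutions. -/
theorem L2D_of_sol
    (hdir : ∀ {n : ℕ} {V φ ψ : E n → ℝ}, VG V → PGC 1 φ → PGC 2 ψ →
      wint (WW V) (GA (tau V) φ ψ) = wint (WW V) (fun x => - (φ x * LL (tau V) ψ x)))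
    {F V : E n → ℝ} {c K R0 : ℝ} (hF : FOK c K R0 F) (hS : Sol F V) :
    ∃ c' K' CP : ℝ, L2D c' K' CP V := by
  have hvg : VG V := CM.H55.vg_of_sol hF hS
  obtain ⟨a, ha, hlo⟩ := hS.pos
  obtain ⟨M, hM⟩ := hvg.bdh
  obtain ⟨K2, hK2⟩ := hvg.gau
  obtain ⟨CP, hCP, hpoi⟩ := poincare n K2
  exact ⟨a, M, CP,
    { c_pos := ha, CP_nn := hCP, lo := hlo, bd := hM, even := hS.even, vg := hvg
      tau1 := CM.H63.pgc_tau hvg
      dir := fun φ ψ h1 h2 => hdir hvg h1 h2
      boch := fun u hu => bochner0_of hvg (CM.H63.pgc_tau hvg) (CM.H63.pd_tau hvg)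
        (fun φ ψ h1 h2 => hdir hvg h1 h2) hu
      poi := fun u hu h0 => hpoi (WW V) (WC_of_VG hvg).1 hK2 u hu h0 }⟩

/-- Row CUT2: approximation of `gf V h` by compactly supported `h`. -/
def ST_CUT2 : Prop :=
  ∀ (n : ℕ) (F V h : E n → ℝ) (M : ℝ), (∃ c K R0, FOK c K R0 F) → Sol F V → IsEv h → H2 3 M h →
    ∀ ε > 0, ∃ h' : E n → ℝ, ContDiff ℝ 5 h' ∧ HasCompactSupport h' ∧ IsEv h' ∧
      PGC 0 (gf V h') ∧ PGC 0 (gf V h) ∧
      ∫ x : E n, (gf V h' x - gf V h x) ^ 2 * Real.exp (- WW V x) < ε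

theorem st_DENS_of
    (hdir : ∀ {n : ℕ} {V φ ψ : E n → ℝ}, VG V → PGC 1 φ → PGC 2 ψ →
      wint (WW V) (GA (tau V) φ ψ) = wint (WW V) (fun x => - (φ x * LL (tau V) ψ x)))
    (hcut : ST_CUT2) : ST_DENS := by
  intro n F V g hF hS hLS hge hgc hgg hgm ε hε
  obtain ⟨c, K, R0, hF'⟩ := hF
  obtain ⟨c', K', CP, hL⟩ := L2D_of_sol hdir hF' hS
  have hg0 : PGC 0 g := CM.H17.pgc_zero_iff.2 ⟨hgc, hgg⟩
  obtain ⟨z, hz, hlt⟩ := hL.approx hLS hg0 hge hgm (show 0 < ε / 4 by positivity)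
  obtain ⟨N, hN⟩ := HB_of_compact (k := 3) (hz.2.1.of_le (by norm_num)) hz.2.2
  obtain ⟨h, M, hhe, hhH, hhA⟩ := hLS z N hz.1 hN
  obtain ⟨h', h1, h2, h3, h4, h5, h6⟩ := hcut n F V h M ⟨c, K, R0, hF'⟩ hS hhe hhH (ε / 4)
    (by positivity)
  refine ⟨h', h1, h2, h3, ?_⟩
  have hW := WC_of_VG hL.vg
  have e1 : gf V h = AK (tau V) 0 z := by
    unfold gf
    rw [show AK (tau V) 1 h = z from funext hhA]
  have hA0 : PGC 0 (AK (tau V) 0 z) := ZZ_AK hL hz
  have q := nn_add hW (hg0.sub12 hA0) ((PGC_const' 0 (-1)).mul12 (h4.sub12 h5)) (θ := 1) one_pos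
  have e2 : (fun x => (g x - AK (tau V) 0 z x + -1 * (gf V h' x - gf V h x)) ^ 2)
      = fun x => (g x - gf V h' x) ^ 2 := by
    funext x
    rw [e1]
    ring
  have e3 : (fun x => (-1 * (gf V h' x - gf V h x)) ^ 2)
      = fun x => (gf V h' x - gf V h x) ^ 2 := by
    funext x; ring
  rw [e2, e3] at q
  have h6' : wint (WW V) (fun x => (gf V h' x - gf V h x) ^ 2) < ε / 4 := h6
  have : (1 + 1 / (1 : ℝ)) = 2 := by norm_num
  rw [this] at q
  have q' : wint (WW V) (fun x => (g x - gf V h' x) ^ 2) < ε := by linarith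
  exact q'

end MM12
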