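import Pool.Agent.Helper12.MM.Dens
import Pool.Agent.Helper52.MM.Cut2

/-!
# Project MM: rows B4.BOCH, B4.L2 and `ST_DENS`, final forms
-/

open MeasureTheory CM

namespace MM12

variable {n : ℕ}

theorem bochner0 {V u : E n → ℝ} (hV : VG V) (hu : PGC 3 u) :
    wint (WW V) (fun x => LL (tau V) u x ^ 2)
      = wint (WW V) (HN (tau V) u) + wint (WW V) (GA (tau V) u u) :=
  bochner0_of hV (CM.H63.pgc_tau hV) (CM.H63.pd_tau hV) (fun _ _ h1 h2 => CM.H63.dirichlet hV h1 h2)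
    hu

theorem l2_main (n : ℕ) (c K : ℝ) (hc : 0 < c) : ∃ C : ℝ, 0 ≤ C ∧ ∀ V : E n → ℝ,
    (∀ x, LB c (hess V x)) → (∀ x i j, |hess V x i j| ≤ K) → GW K (WW V) → IsEv V → VG V →
    ∀ u r : E n → ℝ, IsEv u → PGC 3 u → (∀ x, AK (tau V) 1 u x = r x) →
      wint (WW V) (fun x => ∑ i, ∑ j, hess u x i j ^ 2) ≤ C * wint (WW V) (fun x => r x ^ 2) ∧
      wint (WW V) (fun x => ∑ i, pd i u x ^ 2) ≤ C * wint (WW V) (fun x => r x ^ 2) :=
  l2_main_of (fun hV => CM.H63.pgc_tau hV) (fun hV h1 h2 => CM.H63.dirichlet hV h1 h2)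
    (fun hV hu => bochner0 hV hu) n c K hc

theorem st_CUT2 : ST_CUT2 := by
  intro n F V h M hF hS hhe hhH ε hε
  obtain ⟨c, K, R0, hF'⟩ := hF
  have hvg : VG V := CM.H55.vg_of_sol hF' hS
  obtain ⟨M', hM'⟩ := hS.reg
  have hV5 : PGC 5 V := CM.H17.pgc_of_H2 hM'
  have hh5 : PGC 5 h := CM.H17.pgc_of_H2 hhH
  obtain ⟨h', h1, h2, h3, h4⟩ := Pool.Agent.Helper52.MM.cut2 hvg hV5 hh5 hhe ε hε
  have hτ : ∀ i j, PGC 3 (fun x => tau V x i j) := Pool.Agent.Helper52.MM.pgcK_tau hvg 3 hV5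
  have hh'5 : PGC 4 h' := by
    obtain ⟨N, hN⟩ := HB_of_compact (k := 4) (by exact_mod_cast h1) h2
    exact CM.H17.pgc_of_HB hN
  have key : ∀ u : E n → ℝ, PGC 4 u → PGC 0 (gf V u) := by
    intro u hu
    have e : ∀ (k : ℝ) (w : E n → ℝ), AK (tau V) k w = fun x => - LL (tau V) w x - k * w x := by
      intro k w
      funext x
      rfl
    have h5 : PGC 2 (AK (tau V) 1 u) := by
      rw [e]
      exact (pgc_LL (k := 2) (fun i j => PGC.mono12 (by norm_num) (hτ i j)) hu).neg12.sub12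
        ((PGC_const' 2 1).mul12 (PGC.mono12 (by norm_num) hu))
    unfold gf
    rw [e]
    exact (pgc_LL (k := 0) (fun i j => PGC.mono12 (by norm_num) (hτ i j)) h5).neg12.sub12
      ((PGC_const' 0 0).mul12 (PGC.mono12 (by norm_num) h5))
  exact ⟨h', h1, h2, h3, key h' hh'5, key h (PGC.mono12 (by norm_num) hh5), h4⟩

/-- Row B7a. -/
theorem st_DENS : ST_DENS := st_DENS_of (fun hV h1 h2 => CM.H63.dirichlet hV h1 h2) st_CUT2

end MM12
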