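import Pool.Agent.Helper12.MM.Boch
import Pool.Agent.Helper27.MM.MAT

/-!
# Project MM, row B4.L2: the `L²` estimates for even functions
-/

open MeasureTheory CM

namespace MM12

variable {n : ℕ}

/-! ### parity -/

theorem pd_comp_neg {f : E n → ℝ} (i : Fin n) (x : E n) :
    pd i (fun y => f (-y)) x = - pd i f (-x) := by
  unfold pd
  have h := fderiv_comp_smul (f := f) (-1 : ℝ) (x := x)
  simp only [neg_smul, one_smul] at h
  rw [h]
  simp

theorem pd_even {f : E n → ℝ} (hf : IsEv f) (i : Fin n) (x : E n) : pd i f (-x) = - pd i f x := by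
  have h := pd_comp_neg (f := f) i x
  have e : (fun y => f (-y)) = f := funext hf
  rw [e] at h
  linarith

theorem pd_odd {f : E n → ℝ} (hf : ∀ x, f (-x) = - f x) (i : Fin n) (x : E n) :
    pd i f (-x) = pd i f x := by
  have h := pd_comp_neg (f := f) i x
  have e : (fun y => f (-y)) = fun y => - f y := funext hf
  rw [e, pd_neg'] at h
  linarith

theorem hess_even {f : E n → ℝ} (hf : IsEv f) (x : E n) : hess f (-x) = hess f x := by
  ext i j
  exact pd_odd (pd_even hf j) i x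

theorem eul_even {f : E n → ℝ} (hf : IsEv f) (x : E n) : eul f (-x) = eul f x := by
  rw [eul_eq, eul_eq]
  refine Finset.sum_congr rfl fun i _ => ?_
  rw [pd_even hf]
  simp

theorem WW_even {V : E n → ℝ} (hV : IsEv V) : IsEv (WW V) := by
  intro x
  unfold WW
  rw [eul_even hV, hV, hess_even hV]

theorem tau_even {V : E n → ℝ} (hV : IsEv V) (x : E n) : tau V (-x) = tau V x := by
  unfold tau
  rw [hess_even hV]

theorem LL_even {V u : E n → ℝ} (hV : IsEv V) (hu : IsEv u) : IsEv (LL (tau V) u) := by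
  intro x
  unfold LL
  rw [eul_even hu, hess_even hu, tau_even hV]

theorem AK_even {V u : E n → ℝ} (hV : IsEv V) (hu : IsEv u) (k : ℝ) : IsEv (AK (tau V) k u) := by
  intro x
  unfold AK
  rw [LL_even hV hu, hu]

theorem wint_odd {W f : E n → ℝ} (hW : IsEv W) (hf : ∀ x, f (-x) = - f x) : wint W f = 0 := by
  have h := integral_neg_eq_self (fun x => f x * Real.exp (-(W x))) (volume : Measure (E n))
  have e : (fun x : E n => f (-x) * Real.exp (-(W (-x)))) = fun x => - (f x * Real.exp (-(W x))) := by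
    funext x
    rw [hf, hW]
    ring
  rw [e, integral_neg] at h
  unfold wint
  linarith

/-! ### the estimates -/

/-- Everything known about one potential, with constants. -/
structure L2D (c K CP : ℝ) (V : E n → ℝ) : Prop where
  c_pos : 0 < c
  CP_nn : 0 ≤ CP
  lo : ∀ x, LB c (hess V x)
  bd : ∀ x i j, |hess V x i j| ≤ K
  even : IsEv V
  vg : VG V
  tau1 : ∀ i j, PGC 1 (fun x => tau V x i j)
  dir : ∀ φ ψ : E n → ℝ, PGC 1 φ → PGC 2 ψ →
    wint (WW V) (GA (tau V) φ ψ) = wint (WW V) (fun x => - (φ x * LL (tau V) ψ x))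
  boch : ∀ u, PGC 3 u → wint (WW V) (fun x => LL (tau V) u x ^ 2)
      = wint (WW V) (HN (tau V) u) + wint (WW V) (GA (tau V) u u)
  poi : ∀ u : E n → ℝ, PGC 1 u → wint (WW V) u = 0 →
      wint (WW V) (fun x => u x ^ 2) ≤ CP * wint (WW V) (fun x => ∑ i, pd i u x ^ 2)

theorem pgc_HN {V u : E n → ℝ} (hV : ContDiff ℝ 2 V) (hτ : ∀ i j, PGC 0 (fun x => tau V x i j))
    (hu : PGC 2 u) : PGC 0 (HN (tau V) u) := by
  have hu2 : ContDiff ℝ 2 u := hu.1
  have hh0 : ∀ a b, PGC 0 (pd a (pd b u)) := fun a b => (hu.pd12 b).pd12 a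
  have e : HN (tau V) u = fun x => ∑ i, ∑ a, ∑ b, tau V x a b *
      (∑ j, tau V x i j * pd j (pd a u) x) * pd b (pd i u) x := by
    funext x; exact HN_eq hV hu2 x
  rw [e]
  exact PGC_sum' _ fun i _ => PGC_sum' _ fun a _ => PGC_sum' _ fun b _ =>
    ((hτ a b).mul12 (PGC_sum' _ fun j _ => (hτ i j).mul12 (hh0 j a))).mul12 (hh0 b i)

section
variable {c K CP : ℝ} {V : E n → ℝ}

theorem L2D.V2 (h : L2D c K CP V) : ContDiff ℝ 2 V := h.vg.reg.of_le (by norm_num)

theorem L2D.tau0 (h : L2D c K CP V) (i j : Fin n) : PGC 0 (fun x => tau V x i j) :=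
  PGC.mono12 (by norm_num) (h.tau1 i j)

/-- `b = E |D²u|²_τ = E Lu (Lu + u)`. -/
theorem L2D.b_eq (h : L2D c K CP V) {u : E n → ℝ} (hu : PGC 3 u) :
    wint (WW V) (HN (tau V) u)
      = wint (WW V) (fun x => LL (tau V) u x * (LL (tau V) u x + u x)) := by
  have hW := WC_of_VG h.vg
  have hL : PGC 1 (LL (tau V) u) := pgc_LL h.tau1 hu
  have hL0 : PGC 0 (LL (tau V) u) := PGC.mono12 (by norm_num) hL
  have hu0 : PGC 0 u := PGC.mono12 (by norm_num) hu
  have h1 := h.boch u hu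
  have h2 := h.dir u u (PGC.mono12 (by norm_num) hu) (PGC.mono12 (by norm_num) hu)
  rw [wint_neg] at h2
  have e : (fun x => LL (tau V) u x * (LL (tau V) u x + u x)) =
      fun x => LL (tau V) u x ^ 2 + u x * LL (tau V) u x := by
    funext x; ring
  rw [e, wint_add hW hL0.pow12 (hu0.mul12 hL0), h1, h2]
  ring

theorem L2D.hs_le (h : L2D c K CP V) {u : E n → ℝ} (hu : PGC 3 u) :
    wint (WW V) (fun x => ∑ i, ∑ j, hess u x i j ^ 2) ≤ (n * K) ^ 2 * wint (WW V) (HN (tau V) u) := by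
  have hW := WC_of_VG h.vg
  have hu2 : PGC 2 u := PGC.mono12 (by norm_num) hu
  have hH : ∀ i j, PGC 0 (fun x => hess u x i j) := fun i j => pgc_hess hu2 i j
  have h0 : PGC 0 (fun x => ∑ i, ∑ j, hess u x i j ^ 2) :=
    PGC_sum' _ fun i _ => PGC_sum' _ fun j _ => (hH i j).pow12
  rw [← wint_cmul]
  refine wint_mono hW h0 ((PGC_const' 0 _).mul12 (pgc_HN h.V2 h.tau0 hu2)) fun x => ?_
  exact MM27.mat_hn_lb h.c_pos (CM.H31.hess_symm h.V2 x) (h.lo x) (h.bd x)
    (CM.H31.hess_symm hu2.1 x)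

theorem L2D.b_nonneg (h : L2D c K CP V) {u : E n → ℝ} (hu : PGC 3 u) :
    0 ≤ wint (WW V) (HN (tau V) u) := by
  refine wint_nonneg fun x => ?_
  have hu2 : ContDiff ℝ 2 u := hu.1.of_le (by norm_num)
  exact (MM27.mat_hn_ub h.c_pos (CM.H31.hess_symm h.V2 x) (h.lo x)
    (CM.H31.hess_symm hu2 x)).1

/-- Poincare for the odd functions `u_i`. -/
theorem L2D.grad_le (h : L2D c K CP V) {u : E n → ℝ} (hu : PGC 3 u) (he : IsEv u) :
    wint (WW V) (fun x => ∑ i, pd i u x ^ 2)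
      ≤ CP * ((n * K) ^ 2 * wint (WW V) (HN (tau V) u)) := by
  have hW := WC_of_VG h.vg
  have hu2 : PGC 2 u := PGC.mono12 (by norm_num) hu
  have hp : ∀ i, PGC 1 (pd i u) := fun i => hu2.pd12 i
  have hp0 : ∀ i, PGC 0 (pd i u) := fun i => PGC.mono12 (by norm_num) (hp i)
  have hH : ∀ i j, PGC 0 (fun x => hess u x i j) := fun i j => pgc_hess hu2 i j
  rw [wint_sum _ hW fun i _ => (hp0 i).pow12]
  have h1 : ∀ i, wint (WW V) (fun x => pd i u x ^ 2)
      ≤ CP * wint (WW V) (fun x => ∑ j, pd j (pd i u) x ^ 2) := fun i =>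
    h.poi _ (hp i) (wint_odd (WW_even h.even) (pd_even he i))
  have h2 : (∑ i, wint (WW V) (fun x => ∑ j, pd j (pd i u) x ^ 2))
      = wint (WW V) (fun x => ∑ i, ∑ j, hess u x i j ^ 2) := by
    rw [← wint_sum _ hW fun i _ => PGC_sum' _ fun j _ => ((hp i).pd12 j).pow12]
    congr 1
    funext x
    rw [Finset.sum_comm]
    rfl
  calc (∑ i, wint (WW V) (fun x => pd i u x ^ 2))
      ≤ ∑ i, CP * wint (WW V) (fun x => ∑ j, pd j (pd i u) x ^ 2) := Finset.sum_le_sum fun i _ => h1 i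
    _ = CP * wint (WW V) (fun x => ∑ i, ∑ j, hess u x i j ^ 2) := by
        rw [← Finset.mul_sum, h2]
    _ ≤ _ := mul_le_mul_of_nonneg_left (h.hs_le hu) h.CP_nn

theorem L2D.GA_le (h : L2D c K CP V) {u : E n → ℝ} (hu : PGC 3 u) :
    wint (WW V) (GA (tau V) u u) ≤ (1 / c) * wint (WW V) (fun x => ∑ i, pd i u x ^ 2) := by
  have hW := WC_of_VG h.vg
  have hu1 : PGC 1 u := PGC.mono12 (by norm_num) hu
  have hp0 : ∀ i, PGC 0 (pd i u) := fun i => hu1.pd12 i
  rw [← wint_cmul]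
  refine wint_mono hW (pgc_GA h.tau0 hu1 hu1) ((PGC_const' 0 _).mul12
    (PGC_sum' _ fun i _ => (hp0 i).pow12)) fun x => ?_
  exact (MM27.mat_inv_ub h.c_pos (CM.H31.hess_symm h.V2 x) (h.lo x) (fun i => pd i u x)).2

/-- the constant -/
noncomputable def DD (n : ℕ) (c K CP : ℝ) : ℝ :=
  1 + (1 + 1 / c + CP) * (1 + CP) * (1 + (n * K) ^ 2)

theorem DD_bounds (n : ℕ) {c K CP : ℝ} (hc : 0 < c) (hP : 0 ≤ CP) :
    1 ≤ DD n c K CP ∧ (n * K) ^ 2 ≤ DD n c K CP ∧ CP * (n * K) ^ 2 ≤ DD n c K CP ∧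
      1 + (1 / c) * (CP * (n * K) ^ 2) ≤ DD n c K CP ∧
      CP * (CP * (n * K) ^ 2) ≤ DD n c K CP := by
  have h1 : 0 < 1 / c := by positivity
  have h2 : 0 ≤ ((n : ℝ) * K) ^ 2 := sq_nonneg _
  set a := 1 / c
  set b := ((n : ℝ) * K) ^ 2
  unfold DD
  have p1 : 0 ≤ CP * b := by positivity
  have p2 : 0 ≤ a * b := by positivity
  have p3 : 0 ≤ a * (CP * b) := by positivity
  have p4 : 0 ≤ CP * (CP * b) := by positivity
  have p5 : 0 ≤ CP * CP := by positivity
  have p6 : 0 ≤ a * CP := by positivity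
  have e : 1 + (1 + a + CP) * (1 + CP) * (1 + b)
      = 2 + b + CP + CP * b + a + a * b + a * CP + a * (CP * b) + CP + CP * b + CP * CP
        + CP * (CP * b) := by ring
  rw [e]
  refine ⟨?_, ?_, ?_, ?_, ?_⟩ <;> linarith

theorem L2D.grad_le' (h : L2D c K CP V) {u : E n → ℝ} (hu : PGC 3 u) (he : IsEv u) :
    wint (WW V) (fun x => ∑ i, pd i u x ^ 2) ≤ DD n c K CP * wint (WW V) (HN (tau V) u) := by
  refine (h.grad_le hu he).trans ?_
  rw [← mul_assoc]
  exact mul_le_mul_of_nonneg_right (DD_bounds n h.c_pos h.CP_nn).2.2.1 (h.b_nonneg hu)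

theorem L2D.hs_le' (h : L2D c K CP V) {u : E n → ℝ} (hu : PGC 3 u) :
    wint (WW V) (fun x => ∑ i, ∑ j, hess u x i j ^ 2)
      ≤ DD n c K CP * wint (WW V) (HN (tau V) u) :=
  (h.hs_le hu).trans
    (mul_le_mul_of_nonneg_right (DD_bounds n h.c_pos h.CP_nn).2.1 (h.b_nonneg hu))

theorem L2D.LL_le (h : L2D c K CP V) {u : E n → ℝ} (hu : PGC 3 u) (he : IsEv u) :
    wint (WW V) (fun x => LL (tau V) u x ^ 2) ≤ DD n c K CP * wint (WW V) (HN (tau V) u) := by
  have hb := h.b_nonneg hu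
  rw [h.boch u hu]
  have h1 := (h.GA_le hu).trans (mul_le_mul_of_nonneg_left (h.grad_le hu he)
    (by have := h.c_pos; positivity))
  have h2 := mul_le_mul_of_nonneg_right (DD_bounds (K := K) n h.c_pos h.CP_nn).2.2.2.1 hb
  calc wint (WW V) (HN (tau V) u) + wint (WW V) (GA (tau V) u u)
      ≤ wint (WW V) (HN (tau V) u)
        + 1 / c * (CP * ((n * K) ^ 2 * wint (WW V) (HN (tau V) u))) := by linarith
    _ = (1 + (1 / c) * (CP * (n * K) ^ 2)) * wint (WW V) (HN (tau V) u) := by ring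
    _ ≤ _ := h2

theorem L2D.sq_le (h : L2D c K CP V) {u : E n → ℝ} (hu : PGC 3 u) (he : IsEv u)
    (h0 : wint (WW V) u = 0) :
    wint (WW V) (fun x => u x ^ 2) ≤ DD n c K CP * wint (WW V) (HN (tau V) u) := by
  have hb := h.b_nonneg hu
  have h1 := h.poi u (PGC.mono12 (by norm_num) hu) h0
  have h2 := mul_le_mul_of_nonneg_right (DD_bounds (K := K) n h.c_pos h.CP_nn).2.2.2.2 hb
  calc wint (WW V) (fun x => u x ^ 2) ≤ CP * wint (WW V) (fun x => ∑ i, pd i u x ^ 2) := h1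
    _ ≤ CP * (CP * ((n * K) ^ 2 * wint (WW V) (HN (tau V) u))) :=
        mul_le_mul_of_nonneg_left (h.grad_le hu he) h.CP_nn
    _ = CP * (CP * (n * K) ^ 2) * wint (WW V) (HN (tau V) u) := by ring
    _ ≤ _ := h2

/-- `b ≤ D E r²` for `(A - 1) u = r`. -/
theorem L2D.b_le (h : L2D c K CP V) {u r : E n → ℝ} (hu : PGC 3 u) (he : IsEv u)
    (hr : ∀ x, AK (tau V) 1 u x = r x) :
    wint (WW V) (HN (tau V) u) ≤ DD n c K CP * wint (WW V) (fun x => r x ^ 2) := by
  have hW := WC_of_VG h.vg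
  set D := DD n c K CP with hD
  have hD1 : 1 ≤ D := (DD_bounds n h.c_pos h.CP_nn).1
  have hDp : 0 < D := by linarith
  have hL : PGC 1 (LL (tau V) u) := pgc_LL h.tau1 hu
  have hL0 : PGC 0 (LL (tau V) u) := PGC.mono12 (by norm_num) hL
  have hu0 : PGC 0 u := PGC.mono12 (by norm_num) hu
  have er : r = fun x => - LL (tau V) u x - u x := by
    funext x
    rw [← hr x]
    unfold AK
    ring
  have hr0 : PGC 0 r := by
    rw [er]
    exact hL0.neg12.sub12 hu0
  have hb := h.b_eq hu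
  have hle := h.LL_le hu he
  have h1 : wint (WW V) (fun x => LL (tau V) u x * (LL (tau V) u x + u x))
      ≤ wint (WW V) (fun x => 1 / (2 * D) * LL (tau V) u x ^ 2 + D / 2 * r x ^ 2) := by
    refine wint_mono hW (hL0.mul12 (hL0.add12 hu0)) (((PGC_const' 0 _).mul12 hL0.pow12).add12
      ((PGC_const' 0 _).mul12 hr0.pow12)) fun x => ?_
    have e : LL (tau V) u x + u x = - r x := by
      rw [er]; ring
    rw [e]
    have h3 : 0 ≤ (LL (tau V) u x + D * r x) ^ 2 / (2 * D) := by positivity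
    have h4 : (LL (tau V) u x + D * r x) ^ 2 / (2 * D)
        = 1 / (2 * D) * LL (tau V) u x ^ 2 + D / 2 * r x ^ 2 + LL (tau V) u x * r x := by
      field_simp
      ring
    linarith
  rw [wint_add hW ((PGC_const' 0 _).mul12 hL0.pow12) ((PGC_const' 0 _).mul12 hr0.pow12),
    wint_cmul, wint_cmul] at h1
  have h2 : 1 / (2 * D) * wint (WW V) (fun x => LL (tau V) u x ^ 2)
      ≤ 1 / 2 * wint (WW V) (HN (tau V) u) := by
    calc 1 / (2 * D) * wint (WW V) (fun x => LL (tau V) u x ^ 2)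
        ≤ 1 / (2 * D) * (D * wint (WW V) (HN (tau V) u)) :=
          mul_le_mul_of_nonneg_left hle (by positivity)
      _ = 1 / 2 * wint (WW V) (HN (tau V) u) := by field_simp
  linarith

end

theorem l2_main_of
    (hτ : ∀ {n : ℕ} {V : E n → ℝ}, VG V → ∀ i j, PGC 1 (fun x => tau V x i j))
    (hdir : ∀ {n : ℕ} {V φ ψ : E n → ℝ}, VG V → PGC 1 φ → PGC 2 ψ →
      wint (WW V) (GA (tau V) φ ψ) = wint (WW V) (fun x => - (φ x * LL (tau V) ψ x)))
    (hboch : ∀ {n : ℕ} {V u : E n → ℝ}, VG V → PGC 3 u →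
      wint (WW V) (fun x => LL (tau V) u x ^ 2)
        = wint (WW V) (HN (tau V) u) + wint (WW V) (GA (tau V) u u))
    (n : ℕ) (c K : ℝ) (hc : 0 < c) : ∃ C : ℝ, 0 ≤ C ∧ ∀ V : E n → ℝ,
    (∀ x, LB c (hess V x)) → (∀ x i j, |hess V x i j| ≤ K) → GW K (WW V) → IsEv V → VG V →
    ∀ u r : E n → ℝ, IsEv u → PGC 3 u → (∀ x, AK (tau V) 1 u x = r x) →
      wint (WW V) (fun x => ∑ i, ∑ j, hess u x i j ^ 2) ≤ C * wint (WW V) (fun x => r x ^ 2) ∧
      wint (WW V) (fun x => ∑ i, pd i u x ^ 2) ≤ C * wint (WW V) (fun x => r x ^ 2) := by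
  obtain ⟨CP, hCP, hpoi⟩ := poincare n K
  set D := DD n c K CP with hD
  have hD1 : 1 ≤ D := (DD_bounds n hc hCP).1
  refine ⟨D * D, by positivity, fun V hlo hbd hgw hev hvg u r hue hu hr => ?_⟩
  have hL : L2D c K CP V :=
    { c_pos := hc, CP_nn := hCP, lo := hlo, bd := hbd, even := hev, vg := hvg
      tau1 := hτ hvg
      dir := fun φ ψ h1 h2 => hdir hvg h1 h2
      boch := fun u hu => hboch hvg hu
      poi := fun u hu h0 => hpoi (WW V) (WC_of_VG hvg).1 hgw u hu h0 }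
  have hb := hL.b_le hu hue hr
  constructor
  · calc _ ≤ D * wint (WW V) (HN (tau V) u) := hL.hs_le' hu
      _ ≤ D * (D * wint (WW V) (fun x => r x ^ 2)) := mul_le_mul_of_nonneg_left hb (by linarith)
      _ = _ := by ring
  · calc _ ≤ D * wint (WW V) (HN (tau V) u) := hL.grad_le' hu hue
      _ ≤ D * (D * wint (WW V) (fun x => r x ^ 2)) := mul_le_mul_of_nonneg_left hb (by linarith)
      _ = _ := by ring

end MM12
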