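import Pool.Agent.Helper12.MM.Final
import Pool.Agent.Helper63.MM.St

/-!
# Project MM: `ST_L2`
-/

open MeasureTheory CM

namespace MM12

variable {n : ℕ}

theorem WC_qn : WC (qn : E n → ℝ) := by
  refine ⟨by unfold qn; fun_prop, 0, fun x => by simp⟩

theorem st_L2 : ST_L2 := by
  intro n c K hc
  obtain ⟨C, hC0, hC⟩ := l2_main n c K hc
  set G : ℝ := wint (qn : E n → ℝ) (fun _ => 1) with hG
  have hG0 : 0 ≤ G := wint_nonneg fun _ => zero_le_one
  refine ⟨Real.exp K * (C * (Real.exp K * G)), ?_⟩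
  intro V hV5 hVe hlo hbd hM hgw u r M N hue huH hur hrN
  obtain ⟨M', hM'⟩ := hM
  have hvg : VG V := CM.H63.vg_mk hM' hc hlo hgw
  have hu5 : PGC 5 u := CM.H17.pgc_of_H2 huH
  have hu3 : PGC 3 u := PGC.mono12 (by norm_num) hu5
  have hmain := (hC V hlo hbd hgw hVe hvg u r hue hu3 hur).1
  have hW := WC_of_VG hvg
  have hH : ∀ i j, PGC 0 (fun x => pd i (pd j u) x) := fun i j =>
    PGC.mono12 (by norm_num) ((hu3.pd12 j).pd12 i)
  have hS : PGC 0 (fun x => ∑ i, ∑ j, (pd i (pd j u) x) ^ 2) :=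
    PGC_sum' _ fun i _ => PGC_sum' _ fun j _ => (hH i j).pow12
  have hint : Integrable (fun x : E n => (∑ i, ∑ j, (pd i (pd j u) x) ^ 2) * Real.exp (- qn x)) :=
    int_pgc WC_qn hS
  refine ⟨hint, ?_⟩
  have hL0 : PGC 0 (LL (tau V) u) := PGC.mono12 (by norm_num)
    (pgc_LL (k := 1) (CM.H63.pgc_tau hvg) hu3)
  have hr0 : PGC 0 r := by
    have er : r = fun x => - LL (tau V) u x - 1 * u x := by
      funext x
      rw [← hur x]
      rfl
    rw [er]
    exact hL0.neg12.sub12 ((PGC_const' 0 1).mul12 (PGC.mono12 (by norm_num) hu3))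
  have h1 : (∫ x : E n, (∑ i, ∑ j, (pd i (pd j u) x) ^ 2) * Real.exp (- qn x))
      ≤ Real.exp K * wint (WW V) (fun x => ∑ i, ∑ j, hess u x i j ^ 2) := by
    unfold wint
    rw [← integral_const_mul]
    refine integral_mono hint ((int_pgc hW hS).const_mul _) fun x => ?_
    have h2 : Real.exp (- qn x) ≤ Real.exp K * Real.exp (-(WW V x)) := by
      rw [← Real.exp_add]
      refine Real.exp_le_exp.2 ?_
      have := (abs_le.1 (hgw x)).2
      linarith
    have h3 : 0 ≤ ∑ i, ∑ j, (pd i (pd j u) x) ^ 2 :=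
      Finset.sum_nonneg fun i _ => Finset.sum_nonneg fun j _ => sq_nonneg _
    calc (∑ i, ∑ j, (pd i (pd j u) x) ^ 2) * Real.exp (- qn x)
        ≤ (∑ i, ∑ j, (pd i (pd j u) x) ^ 2) * (Real.exp K * Real.exp (-(WW V x))) :=
          mul_le_mul_of_nonneg_left h2 h3
      _ = Real.exp K * ((∑ i, ∑ j, (pd i (pd j u) x) ^ 2) * Real.exp (-(WW V x))) := by ring
  have h4 : wint (WW V) (fun x => r x ^ 2) ≤ N ^ 2 * (Real.exp K * G) := by
    have h5 : wint (WW V) (fun x => r x ^ 2) ≤ wint (WW V) (fun _ => N ^ 2) := by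
      refine wint_mono hW hr0.pow12 (PGC_const' 0 _) fun x => ?_
      have h6 := hrN x
      have h7 := abs_nonneg (r x)
      rw [← sq_abs]
      exact pow_le_pow_left₀ h7 h6 2
    have h8 : wint (WW V) (fun _ => N ^ 2) ≤ N ^ 2 * (Real.exp K * G) := by
      rw [hG]
      unfold wint
      rw [← integral_const_mul, ← integral_const_mul]
      refine integral_mono (int_pgc hW (PGC_const' 0 _))
        (((int_pgc WC_qn (PGC_const' 0 1)).const_mul _).const_mul _) fun x => ?_
      have h2 : Real.exp (-(WW V x)) ≤ Real.exp K * Real.exp (- qn x) := by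
        rw [← Real.exp_add]
        refine Real.exp_le_exp.2 ?_
        have := (abs_le.1 (hgw x)).1
        linarith
      calc N ^ 2 * Real.exp (-(WW V x)) ≤ N ^ 2 * (Real.exp K * Real.exp (- qn x)) :=
            mul_le_mul_of_nonneg_left h2 (sq_nonneg _)
        _ = N ^ 2 * (Real.exp K * (1 * Real.exp (- qn x))) := by ring
    linarith
  calc (∫ x : E n, (∑ i, ∑ j, (pd i (pd j u) x) ^ 2) * Real.exp (- qn x))
      ≤ Real.exp K * wint (WW V) (fun x => ∑ i, ∑ j, hess u x i j ^ 2) := h1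
    _ ≤ Real.exp K * (C * wint (WW V) (fun x => r x ^ 2)) :=
        mul_le_mul_of_nonneg_left hmain (Real.exp_pos _).le
    _ ≤ Real.exp K * (C * (N ^ 2 * (Real.exp K * G))) :=
        mul_le_mul_of_nonneg_left (mul_le_mul_of_nonneg_left h4 hC0) (Real.exp_pos _).le
    _ = Real.exp K * (C * (Real.exp K * G)) * N ^ 2 := by ring

end MM12
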